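import Pool.Agent.N109.SlabU.CltD
import Pool.Agent.N990.C.Def

/-!
# The continuum limit of the slab: definitions
-/

set_option autoImplicit false
set_option linter.unusedSectionVars false
set_option linter.unusedVariables false

open MeasureTheory Filter Topology
open scoped ContDiff

namespace Pool.Agent.N986.CL

open Pool.Agent.N990 (Site Lab)
open Pool.Agent.N109.Slab (SF box)
open Pool.Agent.N109.SlabU (qA)
open Pool.Agent.N990.C (QC Pt)

noncomputable section

variable {D : ℕ}

/-- the sampled test function -/
def smp (f : Pt D → Fin D → ℝ) (L : ℕ) : SF D L := fun x a =>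
  ((√(L : ℝ))⁻¹) ^ (D + 3) * f (fun j => (x j : ℝ) / L, ((a.2 : ℝ) + 1) / L) a.1

/-- **The deterministic input**: convergence of the quadratic forms. -/
def QLim (D : ℕ) : Prop :=
  ∀ f : Pt D → Fin D → ℝ, Continuous f → HasCompactSupport f →
    ∀ r : ℕ → ℕ, Tendsto (fun L : ℕ => (r L : ℝ) / L) atTop atTop →
      Tendsto (fun L => qA (box D (r L)) (smp f L)) atTop (𝓝 (QC f))

end

end Pool.Agent.N986.CL
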