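import Pool.Agent.N986.CL.Dual

/-!
# Sharpness of the mass with separation by a hyperplane
-/

set_option autoImplicit false
set_option linter.unusedSectionVars false
set_option linter.unusedVariables false
set_option linter.style.haveILetI false

open MeasureTheory Set Filter Topology
open scoped ContDiff

namespace Pool.Agent.N986.CL

open Pool.Agent.N990.C (Pt Slb eh ez pd dC EC IsTest JC QC)
open Pool.Agent.N839.C (Cc CcF PR BC N2 NM NM_exists lc lc_test JC_PR PR_lc EC_lc PR_comm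
  EC_nonneg QC_nonneg le_QC int_slb u_cc pr_cc JC_le QC_rate)

noncomputable section

variable {D : ℕ}

/-- the cutoff function -/
structure Cut (l : Fin D) (δ lam : ℝ) (Φ : (Fin D → ℝ) → ℝ) : Prop where
  smooth : ContDiff ℝ ∞ Φ
  supp : HasCompactSupport Φ
  one : ∀ y, ‖y‖ ≤ 1 → y l ≤ δ → Φ y = 1
  zero : ∀ y, lam * δ ≤ y l → Φ y = 0
  zero' : ∀ y, 2 ≤ ‖y‖ → Φ y = 0

lemma exists_cut (l : Fin D) {δ lam : ℝ} (hδ : 0 < δ) (hl : 1 < lam) : ∃ Φ, Cut l δ lam Φ := by
  let φ : ContDiffBump (0 : Fin D → ℝ) := ⟨1, 2, one_pos, one_lt_two⟩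
  have h0 : 0 < lam * δ - δ := by nlinarith
  refine ⟨fun y => φ y * Real.smoothTransition ((lam * δ - y l) / (lam * δ - δ)), ?_, ?_, ?_, ?_, ?_⟩
  · exact φ.contDiff.mul (Real.smoothTransition.contDiff.comp
      ((contDiff_const.sub (contDiff_apply ℝ ℝ l)).div_const _))
  · exact φ.hasCompactSupport.mul_right
  · intro y h1 h2
    beta_reduce
    rw [φ.one_of_mem_closedBall (by rw [Metric.mem_closedBall, dist_zero_right]; exact h1),
      Real.smoothTransition.one_of_one_le, one_mul]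
    rw [one_le_div h0]
    linarith
  · intro y h
    beta_reduce
    rw [Real.smoothTransition.zero_of_nonpos, mul_zero]
    exact div_nonpos_of_nonpos_of_nonneg (by linarith) h0.le
  · intro y h
    beta_reduce
    rw [φ.zero_of_le_dist (by rw [dist_zero_right]; exact h), zero_mul]

/-- the scaled function -/
def sclf (Φ : (Fin D → ℝ) → ℝ) (T : ℝ) (y : Fin D → ℝ) : ℝ := Φ (T⁻¹ • y)

lemma sclf_smooth {Φ : (Fin D → ℝ) → ℝ} (h : ContDiff ℝ ∞ Φ) (T : ℝ) :
    ContDiff ℝ ∞ (sclf Φ T) := h.comp (contDiff_const_smul _)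

lemma pa_scl {Φ : (Fin D → ℝ) → ℝ} (h : ContDiff ℝ ∞ Φ) (T : ℝ) (i : Fin D) :
    pa (sclf Φ T) i = fun y => T⁻¹ * sclf (pa Φ i) T y := by
  funext y
  have h1 : HasFDerivAt (sclf Φ T)
      ((fderiv ℝ Φ (T⁻¹ • y)).comp (T⁻¹ • ContinuousLinearMap.id ℝ (Fin D → ℝ))) y := by
    refine (h.differentiable (by norm_num) (T⁻¹ • y)).hasFDerivAt.comp y ?_
    exact (hasFDerivAt_id y).const_smul T⁻¹
  unfold pa sclf
  unfold sclf at h1
  rw [h1.fderiv]
  simp

lemma pa_const_mul {a : (Fin D → ℝ) → ℝ} (ha : ContDiff ℝ ∞ a) (c : ℝ) (i : Fin D) :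
    pa (fun y => c * a y) i = fun y => c * pa a i y := by
  funext y
  unfold pa
  rw [((ha.differentiable (by norm_num) y).hasFDerivAt.const_mul c).fderiv]
  simp

lemma pa_add {a b : (Fin D → ℝ) → ℝ} (ha : ContDiff ℝ ∞ a) (hb : ContDiff ℝ ∞ b) (i : Fin D) :
    pa (fun y => a y + b y) i = fun y => pa a i y + pa b i y := by
  funext y
  unfold pa
  have h1 : HasFDerivAt (fun y => a y + b y) (fderiv ℝ a y + fderiv ℝ b y) y :=
    (ha.differentiable (by norm_num) y).hasFDerivAt.add (hb.differentiable (by norm_num) y).hasFDerivAt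
  rw [h1.fderiv]
  simp

/-- the exponent in the direction `i` -/
def cl (l i : Fin D) : ℝ := if i = l then Real.pi / 2 else 0

lemma pa_mul_hx {a : (Fin D → ℝ) → ℝ} (ha : ContDiff ℝ ∞ a) (l i : Fin D) :
    pa (fun y => a y * hx l y) i = fun y => (pa a i y + cl l i * a y) * hx l y := by
  funext y
  have h1 : HasFDerivAt (fun y => a y * hx l y) _ y :=
    (ha.differentiable (by norm_num) y).hasFDerivAt.mul (hx_deriv l y)
  have h3 := congrFun (hx_pa l i) y
  unfold pa at h3 ⊢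
  rw [h1.fderiv]
  rw [(hx_deriv l y).fderiv] at h3
  simp only [add_apply, smul_apply, smul_eq_mul] at h3 ⊢
  rw [h3]
  unfold cl
  split_ifs <;> ring

/-- second derivatives -/
lemma pa2_mul_hx {a : (Fin D → ℝ) → ℝ} (ha : ContDiff ℝ ∞ a) (l i j : Fin D) :
    pa (pa (fun y => a y * hx l y) i) j = fun y => (pa (pa a i) j y + cl l i * pa a j y +
      cl l j * pa a i y + cl l i * cl l j * a y) * hx l y := by
  rw [pa_mul_hx ha]
  have h1 := pa_smooth ha i
  have h2 : ContDiff ℝ ∞ fun y => cl l i * a y := contDiff_const.mul ha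
  rw [pa_mul_hx (h1.add h2), pa_add h1 h2, pa_const_mul ha]
  funext y
  ring

lemma pa_bd {Φ : (Fin D → ℝ) → ℝ} (h : ContDiff ℝ ∞ Φ) (hs : HasCompactSupport Φ) :
    ∃ C : ℝ, 0 ≤ C ∧ (∀ y, |Φ y| ≤ C) ∧ (∀ i y, |pa Φ i y| ≤ C) ∧
      ∀ i j y, |pa (pa Φ i) j y| ≤ C := by
  obtain ⟨C0, h0⟩ := hs.exists_bound_of_continuous h.continuous
  choose C1 h1 using fun i => (pa_supp hs i).exists_bound_of_continuous (pa_smooth h i).continuous
  choose C2 h2 using fun i j => (pa_supp (pa_supp hs i) j).exists_bound_of_continuous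
    (pa_smooth (pa_smooth h i) j).continuous
  have n0 : 0 ≤ C0 := (norm_nonneg _).trans (h0 0)
  have n1 : ∀ i, 0 ≤ C1 i := fun i => (norm_nonneg _).trans (h1 i 0)
  have n2 : ∀ i j, 0 ≤ C2 i j := fun i j => (norm_nonneg _).trans (h2 i j 0)
  have m1 : 0 ≤ ∑ i, C1 i := Finset.sum_nonneg fun i _ => n1 i
  have m2 : 0 ≤ ∑ i, ∑ j, C2 i j := Finset.sum_nonneg fun i _ => Finset.sum_nonneg fun j _ => n2 i j
  refine ⟨C0 + ∑ i, C1 i + ∑ i, ∑ j, C2 i j, by positivity, fun y => ?_, fun i y => ?_,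
    fun i j y => ?_⟩
  · have := h0 y
    rw [Real.norm_eq_abs] at this
    linarith
  · have := h1 i y
    rw [Real.norm_eq_abs] at this
    have k := Finset.single_le_sum (f := C1) (fun i _ => n1 i) (Finset.mem_univ i)
    linarith
  · have := h2 i j y
    rw [Real.norm_eq_abs] at this
    have k := Finset.single_le_sum (f := fun i => ∑ j, C2 i j)
      (fun i _ => Finset.sum_nonneg fun j _ => n2 i j) (Finset.mem_univ i)
    have k' := Finset.single_le_sum (f := C2 i) (fun j _ => n2 i j) (Finset.mem_univ j)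
    linarith

/-- the cut off harmonic function -/
def da (Φ : (Fin D → ℝ) → ℝ) (l : Fin D) (T : ℝ) (y : Fin D → ℝ) : ℝ := sclf Φ T y * hx l y

lemma da_smooth {Φ : (Fin D → ℝ) → ℝ} (h : ContDiff ℝ ∞ Φ) (l : Fin D) (T : ℝ) :
    ContDiff ℝ ∞ (da Φ l T) := (sclf_smooth h T).mul (hx_smooth l)

lemma norm_inv_smul {T : ℝ} (hT : 0 < T) (y : Fin D → ℝ) : ‖T⁻¹ • y‖ = ‖y‖ / T := by
  rw [norm_smul, norm_inv, Real.norm_eq_abs, abs_of_pos hT, inv_mul_eq_div]

section cut

variable {l k : Fin D} {δ lam : ℝ} {Φ : (Fin D → ℝ) → ℝ}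

lemma da_far (hΦ : Cut l δ lam Φ) {T : ℝ} (hT : 0 < T) {y : Fin D → ℝ} (h : 2 * T ≤ ‖y‖) :
    da Φ l T y = 0 := by
  unfold da sclf
  rw [hΦ.zero' _ (by rw [norm_inv_smul hT, le_div_iff₀ hT]; exact h), zero_mul]

lemma da_right (hΦ : Cut l δ lam Φ) {T : ℝ} (hT : 0 < T) {y : Fin D → ℝ}
    (h : lam * δ * T ≤ y l) : da Φ l T y = 0 := by
  unfold da sclf
  rw [hΦ.zero _ (by
    rw [Pi.smul_apply, smul_eq_mul, inv_mul_eq_div, le_div_iff₀ hT]; exact h), zero_mul]

lemma da_in (hΦ : Cut l δ lam Φ) {T : ℝ} (hT : 0 < T) {y : Fin D → ℝ}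
    (h1 : ‖y‖ ≤ T) (h2 : y l ≤ δ * T) : da Φ l T y = hx l y := by
  unfold da sclf
  rw [hΦ.one _ (by rw [norm_inv_smul hT, div_le_one hT]; exact h1) (by
    rw [Pi.smul_apply, smul_eq_mul, inv_mul_eq_div, div_le_iff₀ hT]; exact h2), one_mul]

lemma da_supp (hΦ : Cut l δ lam Φ) {T : ℝ} (hT : 0 < T) : HasCompactSupport (da Φ l T) :=
  HasCompactSupport.intro (isCompact_closedBall (0 : Fin D → ℝ) (2 * T)) fun y hy =>
    da_far hΦ hT (by
      rw [Metric.mem_closedBall, dist_zero_right, not_le] at hy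
      exact hy.le)

/-- equality near a point gives equality of the images -/
lemma fg_congr {a b : (Fin D → ℝ) → ℝ} {s : ℝ → ℝ} {p : Pt D} (h : a =ᶠ[𝓝 p.1] b) :
    fg a s k p = fg b s k p := by
  have h2 : ∀ i, pa a i =ᶠ[𝓝 p.1] pa b i := by
    intro i
    filter_upwards [h.fderiv (𝕜 := ℝ)] with t ht
    unfold pa
    rw [ht]
  have h3 : ∀ i j, pa (pa a i) j p.1 = pa (pa b i) j p.1 := by
    intro i j
    unfold pa at h2 ⊢
    rw [(h2 i).fderiv_eq]
  funext j
  unfold fg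
  simp only [h3, h.eq_of_nhds]

lemma fg_hx (hlk : l ≠ k) (s : ℝ → ℝ) (p : Pt D) : fg (hx l) s k p = 0 := by
  funext j
  unfold fg
  simp only [hx_pa2]
  have h4 : ¬k = l := fun h => hlk h.symm
  simp only [h4, if_false, ite_self, add_zero, Pi.zero_apply, mul_eq_zero]
  right
  have h5 : ∀ i : Fin D, (if i = l then (if i = l then (Real.pi / 2) ^ 2 * hx l p.1 else 0) else 0) =
      if i = l then (Real.pi / 2) ^ 2 * hx l p.1 else 0 := by
    intro i
    by_cases h : i = l <;> simp [h]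
  simp only [h5, Finset.sum_ite_eq', Finset.mem_univ, if_true, sub_self, ite_self]

lemma fg_zero (s : ℝ → ℝ) (p : Pt D) : fg (fun _ => 0) s k p = 0 := by
  have h1 : ∀ i, pa (fun _ : Fin D → ℝ => (0 : ℝ)) i = fun _ => 0 := by
    intro i
    funext y
    unfold pa
    simp
  funext j
  unfold fg
  simp only [h1]
  simp

lemma fg_in (hΦ : Cut l δ lam Φ) (hlk : l ≠ k) {T : ℝ} (hT : 0 < T) (s : ℝ → ℝ) {p : Pt D}
    (h1 : ‖p.1‖ < T) (h2 : p.1 l < δ * T) : fg (da Φ l T) s k p = 0 := by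
  rw [fg_congr (b := hx l), fg_hx hlk]
  filter_upwards [(isOpen_lt continuous_norm continuous_const).mem_nhds h1,
    (isOpen_lt (continuous_apply l) continuous_const).mem_nhds h2] with t ht ht'
  exact da_in hΦ hT (le_of_lt ht) (le_of_lt ht')

lemma fg_far (hΦ : Cut l δ lam Φ) {T : ℝ} (hT : 0 < T) (s : ℝ → ℝ) {p : Pt D}
    (h : 2 * T < ‖p.1‖) : fg (da Φ l T) s k p = 0 := by
  rw [fg_congr (b := fun _ => 0), fg_zero]
  filter_upwards [(isOpen_lt continuous_const continuous_norm).mem_nhds h] with t ht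
  exact da_far hΦ hT (le_of_lt ht)

lemma fg_right (hΦ : Cut l δ lam Φ) {T : ℝ} (hT : 0 < T) (s : ℝ → ℝ) {p : Pt D}
    (h : lam * δ * T < p.1 l) : fg (da Φ l T) s k p = 0 := by
  rw [fg_congr (b := fun _ => 0), fg_zero]
  filter_upwards [(isOpen_lt continuous_const (continuous_apply l)).mem_nhds h] with t ht
  exact da_right hΦ hT (le_of_lt ht)

/-- the bound of the image -/
lemma fg_bd (hΦ : Cut l δ lam Φ) : ∃ B : ℝ, 0 ≤ B ∧ ∀ T : ℝ, 1 ≤ T → ∀ (s : ℝ → ℝ), Prof s →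
    ∀ p ∈ Slb D, ∀ j, |fg (da Φ l T) s k p j| ≤ B * Real.exp (Real.pi / 2 * (lam * δ * T)) := by
  obtain ⟨C, hC0, hC1, hC2, hC3⟩ := pa_bd hΦ.smooth hΦ.supp
  have hpi := Real.pi_pos
  have hpi4 := Real.pi_lt_four
  obtain ⟨B, hB⟩ : ∃ B, B = C * 9 := ⟨_, rfl⟩
  refine ⟨4 * C + (D + 1) * B, by rw [hB]; positivity, fun T hT s hs p hp j => ?_⟩
  have hT0 : 0 < T := by linarith
  by_cases h : lam * δ * T < p.1 l
  · rw [fg_right hΦ hT0 s h]
    simp only [Pi.zero_apply, abs_zero]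
    rw [hB]
    positivity
  have hH : hx l p.1 ≤ Real.exp (Real.pi / 2 * (lam * δ * T)) :=
    Real.exp_le_exp.2 (mul_le_mul_of_nonneg_left (not_lt.1 h) (by positivity))
  have hH0 : 0 < hx l p.1 := Real.exp_pos _
  have hTi : T⁻¹ ≤ 1 := inv_le_one_of_one_le₀ hT
  have hTi0 : 0 < T⁻¹ := inv_pos.2 hT0
  have hcl : ∀ i, |cl l i| ≤ 2 := by
    intro i
    unfold cl
    split_ifs
    · rw [abs_of_pos (by positivity)]
      linarith
    · simp
  have hsm := sclf_smooth hΦ.smooth T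
  have b0 : |da Φ l T p.1| ≤ C * hx l p.1 := by
    unfold da
    rw [abs_mul, abs_of_pos hH0]
    exact mul_le_mul_of_nonneg_right (hC1 _) hH0.le
  have b2 : ∀ i j, |pa (pa (da Φ l T) i) j p.1| ≤ B * hx l p.1 := by
    intro i j
    have e1 : pa (pa (da Φ l T) i) j p.1 = _ := congrFun (pa2_mul_hx hsm l i j) p.1
    rw [e1]
    simp only [pa_scl hΦ.smooth]
    have e2 : pa (fun y => T⁻¹ * sclf (pa Φ i) T y) j p.1 =
        T⁻¹ * (T⁻¹ * sclf (pa (pa Φ i) j) T p.1) := by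
      have h3 := congrFun (pa_const_mul (sclf_smooth (pa_smooth hΦ.smooth i) T) T⁻¹ j) p.1
      rw [h3, pa_scl (pa_smooth hΦ.smooth i)]
    rw [e2, abs_mul, abs_of_pos hH0]
    refine mul_le_mul_of_nonneg_right ?_ hH0.le
    have s1 : |T⁻¹ * (T⁻¹ * sclf (pa (pa Φ i) j) T p.1)| ≤ C := by
      rw [abs_mul, abs_mul, abs_of_pos hTi0]
      calc T⁻¹ * (T⁻¹ * |sclf (pa (pa Φ i) j) T p.1|) ≤ 1 * (1 * C) :=
            mul_le_mul hTi (mul_le_mul hTi (hC3 i j _) (abs_nonneg _) zero_le_one)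
              (by positivity) zero_le_one
        _ = C := by ring
    have s2 : ∀ i' j', |cl l i' * (T⁻¹ * sclf (pa Φ j') T p.1)| ≤ 2 * C := by
      intro i' j'
      rw [abs_mul, abs_mul, abs_of_pos hTi0]
      refine mul_le_mul (hcl i') ?_ (by positivity) (by norm_num)
      calc T⁻¹ * |sclf (pa Φ j') T p.1| ≤ 1 * C :=
            mul_le_mul hTi (hC2 j' _) (abs_nonneg _) zero_le_one
        _ = C := by ring
    have s3 : |cl l i * cl l j * sclf Φ T p.1| ≤ 4 * C := by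
      rw [abs_mul, abs_mul]
      refine mul_le_mul ?_ (hC1 _) (abs_nonneg _) (by norm_num)
      calc |cl l i| * |cl l j| ≤ 2 * 2 :=
            mul_le_mul (hcl i) (hcl j) (abs_nonneg _) (by norm_num)
        _ = 4 := by norm_num
    rw [hB]
    calc _ ≤ C + 2 * C + 2 * C + 4 * C := by
          refine (abs_add_le _ _).trans (add_le_add ((abs_add_le _ _).trans
            (add_le_add ((abs_add_le _ _).trans (add_le_add s1 (s2 i j))) (s2 j i))) s3)
      _ = C * 9 := by ring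
  have hs1 : |s p.2| ≤ 1 := by
    rw [hs.val p.2 hp]
    exact Real.abs_sin_le_one _
  unfold fg
  rw [abs_mul]
  have t1 : |(if j = k then (Real.pi / 2) ^ 2 * da Φ l T p.1 - ∑ i, pa (pa (da Φ l T) i) i p.1
      else 0)| ≤ (4 * C + D * B) * hx l p.1 := by
    have hB0 : 0 ≤ B := by rw [hB]; positivity
    split_ifs
    · have k1 : |(Real.pi / 2) ^ 2 * da Φ l T p.1| ≤ 4 * (C * hx l p.1) := by
        rw [abs_mul, abs_of_pos (by positivity)]
        exact mul_le_mul (by nlinarith) b0 (abs_nonneg _) (by norm_num)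
      have k2 : |∑ i, pa (pa (da Φ l T) i) i p.1| ≤ D * (B * hx l p.1) := by
        refine (Finset.abs_sum_le_sum_abs _ _).trans ((Finset.sum_le_sum fun i _ => b2 i i).trans
          (le_of_eq ?_))
        rw [Finset.sum_const, Finset.card_univ, Fintype.card_fin, nsmul_eq_mul]
      calc _ ≤ 4 * (C * hx l p.1) + D * (B * hx l p.1) := (abs_sub _ _).trans (add_le_add k1 k2)
        _ = _ := by ring
    · rw [abs_zero]
      positivity
  calc |s p.2| * |_| ≤ 1 * ((4 * C + D * B) * hx l p.1 + B * hx l p.1) :=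
        mul_le_mul hs1 ((abs_add_le _ _).trans (add_le_add t1 (b2 j k))) (abs_nonneg _) zero_le_one
    _ = (4 * C + (D + 1) * B) * hx l p.1 := by ring
    _ ≤ _ := mul_le_mul_of_nonneg_left hH (by rw [hB]; positivity)

end cut

end

end Pool.Agent.N986.CL
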