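import Pool.Agent.N986.CL.Dir

/-!
# Sharpness of the mass with separation by a hyperplane: the theorem
-/

set_option autoImplicit false
set_option linter.unusedSectionVars false
set_option linter.unusedVariables false
set_option linter.style.haveILetI false

open MeasureTheory Set Filter Topology
open scoped ContDiff

namespace Pool.Agent.N986.CL

open Pool.Agent.N990.C (Pt Slb eh ez pd dC EC IsTest JC QC)
open Pool.Agent.N839.C (Cc CcF PR BC N2 NM NM_exists lc lc_test JC_PR PR_lc EC_lc PR_comm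
  EC_nonneg QC_nonneg le_QC int_slb u_cc pr_cc JC_le QC_rate)

noncomputable section

variable {D : ℕ}

/-- the pairing with the harmonic function -/
lemma pair_gen {a b : (Fin D → ℝ) → ℝ} (ha : ContDiff ℝ ∞ a) (has : HasCompactSupport a)
    (l k : Fin D) {s : ℝ → ℝ} (hs : Prof s) (h : ∀ y, a y ≠ 0 → b y = hx l y) :
    JC (fw a s k) (fw b s k) =
      2 * ((∫ y, a y * hx l y) * ∫ z in Icc (0 : ℝ) 1, s z ^ 2) := by
  unfold JC
  congr 1
  have e1 : ∀ p : Pt D, ∑ i, fw a s k p i * fw b s k p i =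
      (a p.1 * hx l p.1) * s p.2 ^ 2 := by
    intro p
    unfold fw
    simp only [ite_mul, zero_mul, Finset.sum_ite_eq', Finset.mem_univ, if_true]
    by_cases h1 : a p.1 = 0
    · rw [h1]
      ring
    · rw [h _ h1]
      ring
  simp only [e1]
  have hc : Cc fun p : Pt D => (a p.1 * hx l p.1) * s p.2 ^ 2 := by
    have h1 := ha.continuous
    have h2 := (hx_smooth l).continuous
    have h3 := hs.smooth.continuous
    refine ⟨((h1.comp continuous_fst).mul (h2.comp continuous_fst)).mul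
      ((h3.comp continuous_snd).pow 2), ?_⟩
    refine HasCompactSupport.intro (has.isCompact.prod hs.supp.isCompact)
      fun p hp => ?_
    rw [mem_prod, not_and_or] at hp
    rcases hp with hp | hp
    · rw [image_eq_zero_of_notMem_tsupport hp]; ring
    · rw [image_eq_zero_of_notMem_tsupport hp]; ring
  rw [int_slb hc]
  simp only [integral_const_mul]
  rw [integral_mul_const]

lemma sq_pos {s : ℝ → ℝ} (hs : Prof s) : 0 < ∫ z in Icc (0 : ℝ) 1, s z ^ 2 := by
  rw [integral_Icc_eq_integral_Ioc, ← intervalIntegral.integral_of_le zero_le_one]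
  refine intervalIntegral.intervalIntegral_pos_of_pos_on
    ((hs.smooth.continuous.pow 2).intervalIntegrable 0 1) (fun z hz => ?_) one_pos
  rw [hs.val z ⟨hz.1.le, hz.2.le⟩]
  have : 0 < Real.sin (Real.pi / 2 * z) := by
    refine Real.sin_pos_of_pos_of_lt_pi ?_ ?_
    · have := hz.1
      positivity
    · have := hz.2
      have := Real.pi_pos
      nlinarith
  positivity

/-- the ramp -/
def ramp (u v t : ℝ) : ℝ := max 0 (min 1 ((t - u) / (v - u)))

lemma ramp_cont (u v : ℝ) : Continuous (ramp u v) := by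
  unfold ramp
  fun_prop

lemma ramp_nonneg (u v t : ℝ) : 0 ≤ ramp u v t := le_max_left _ _

lemma ramp_le (u v t : ℝ) : ramp u v t ≤ 1 := max_le zero_le_one (min_le_left _ _)

lemma ramp_zero {u v t : ℝ} (h : u < v) (ht : t ≤ u) : ramp u v t = 0 := by
  unfold ramp
  refine max_eq_left ((min_le_right _ _).trans ?_)
  exact div_nonpos_of_nonpos_of_nonneg (by linarith) (by linarith)

lemma ramp_one {u v t : ℝ} (h : u < v) (ht : v ≤ t) : ramp u v t = 1 := by
  unfold ramp
  have h0 : 0 < v - u := by linarith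
  rw [min_eq_left, max_eq_right zero_le_one]
  rw [one_le_div h0]
  linarith

/-- **Sharpness of the mass in every direction.** -/
theorem not_rate_dir (hD : 2 ≤ D) (l : Fin D) {m : ℝ} (hm : Real.pi / 2 < m) : ¬ ∃ C : ℝ,
    ∀ (f g : Pt D → Fin D → ℝ) (R : ℝ), Continuous f → Continuous g → HasCompactSupport f →
      HasCompactSupport g → 0 ≤ R → (∀ p, f p ≠ 0 → p.1 l ≤ 0) → (∀ q, g q ≠ 0 → R ≤ q.1 l) →
      |QC (f + g) - QC f - QC g| ≤ C * Real.exp (-(m * R)) * √(QC f * QC g) := by
  rintro ⟨C, hC⟩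
  have hpi := Real.pi_pos
  have hpi4 := Real.pi_lt_four
  have hpi3 := Real.pi_gt_three
  have hm0 : 0 < m := by linarith
  obtain ⟨C1, hC1⟩ := QC_rate (D := D) (m := 1) (by linarith)
  -- the parameters
  obtain ⟨lam, hl1, hl2, hl3⟩ : ∃ lam : ℝ, 1 < lam ∧ lam < 3 / 2 ∧
      Real.pi / 2 * lam ^ 2 < m := by
    have h1 : 1 < m / (Real.pi / 2) := by rwa [one_lt_div (by positivity)]
    have h2 : 1 < √(m / (Real.pi / 2)) := by
      rw [Real.lt_sqrt (by norm_num)]
      linarith
    obtain ⟨lam, a1, a2⟩ := exists_between (lt_min (by norm_num : (1 : ℝ) < 3 / 2) h2)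
    refine ⟨lam, a1, a2.trans_le (min_le_left _ _), ?_⟩
    have h3 : lam < √(m / (Real.pi / 2)) := a2.trans_le (min_le_right _ _)
    have h4 : lam ^ 2 < m / (Real.pi / 2) := (Real.lt_sqrt (by linarith)).1 h3
    rw [lt_div_iff₀ (by positivity)] at h4
    linarith
  obtain ⟨k, hlk⟩ : ∃ k : Fin D, l ≠ k := by
    by_cases h : l = ⟨0, by omega⟩
    · refine ⟨⟨1, by omega⟩, fun h' => ?_⟩
      rw [h] at h'
      have := congrArg Fin.val h'
      simp at this
    · exact ⟨_, h⟩
  obtain ⟨Φ, hΦ⟩ := exists_cut l (δ := 1 / 4) (lam := lam) (by norm_num) hl1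
  obtain ⟨s, hs⟩ := exists_prof
  obtain ⟨B, hB0, hB⟩ := fg_bd (k := k) hΦ
  -- the fixed field
  let φ : ContDiffBump (Pi.single l (-3) : Fin D → ℝ) := ⟨1, 2, one_pos, one_lt_two⟩
  have hφs : ContDiff ℝ ∞ φ := φ.contDiff
  have hφc : HasCompactSupport φ := φ.hasCompactSupport
  have hφn : ∀ y, φ y ≠ 0 → y l ≤ 0 ∧ ‖y‖ ≤ 5 := by
    intro y hy
    have h1 : dist y (Pi.single l (-3)) < 2 := by
      by_contra h
      exact hy (φ.zero_of_le_dist (not_lt.1 h))
    constructor
    · have h2 := (dist_le_pi_dist y (Pi.single l (-3)) l).trans_lt h1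
      rw [Pi.single_eq_same, Real.dist_eq] at h2
      have h3 := (abs_lt.1 h2).2
      linarith
    · have h2 := dist_triangle y (Pi.single l (-3)) 0
      rw [dist_zero_right, dist_zero_right, Pi.norm_single, Real.norm_eq_abs,
        abs_of_neg (by norm_num)] at h2
      linarith
  have t1 := fw_test hφs hφc hs k
  obtain ⟨f, hf⟩ : ∃ f, f = fw φ s k := ⟨_, rfl⟩
  have hfc : Continuous f := by rw [hf]; exact t1.smooth.continuous
  have hfs : HasCompactSupport f := by rw [hf]; exact t1.supp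
  have hfn : ∀ p, f p ≠ 0 → p.1 l ≤ 0 ∧ ‖p.1‖ ≤ 5 := by
    intro p hp
    apply hφn
    intro h
    apply hp
    rw [hf]
    funext i
    unfold fw
    rw [h, zero_mul, ite_self]
    rfl
  have hfF := CcF.of hfc hfs
  have hQf := QC_nonneg hfF
  obtain ⟨c0, hc0⟩ : ∃ c0, c0 = 2 * ((∫ y, φ y * hx l y) *
    ∫ z in Icc (0 : ℝ) 1, s z ^ 2) := ⟨_, rfl⟩
  have hc0' : 0 < c0 := by
    rw [hc0]
    refine mul_pos two_pos (mul_pos ?_ (sq_pos hs))
    refine Continuous.integral_pos_of_hasCompactSupport_nonneg_nonzero (x := Pi.single l (-3))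
      (hφs.continuous.mul (hx_smooth l).continuous) hφc.mul_right (fun y => ?_) ?_
    · exact mul_nonneg φ.nonneg (Real.exp_pos _).le
    · rw [φ.one_of_mem_closedBall (by rw [Metric.mem_closedBall, dist_self]; exact zero_le_one),
        one_mul]
      exact (Real.exp_pos _).ne'
  obtain ⟨E, hE⟩ : ∃ E : ℝ → ℝ, E = fun T => Real.exp (Real.pi / 2 * (lam * (1 / 4) * T)) :=
    ⟨_, rfl⟩
  have hE0 : ∀ T, 0 < E T := fun T => by rw [hE]; exact Real.exp_pos _
  obtain ⟨V, hV⟩ : ∃ V : ℝ, V = QC f * (D * B ^ 2) := ⟨_, rfl⟩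
  have hV0 : 0 ≤ V := by rw [hV]; positivity
  have key : ∀ T : ℝ, 5 ≤ T → c0 ≤ (|C| * Real.exp (-(m * (1 / 4 / lam * T))) +
      |C1| * Real.exp (-(T - 5))) * (√V * (4 * T) ^ D * E T) := by
    intro T hT
    have hT0 : 0 < T := by linarith
    have hT1 : 1 ≤ T := by linarith
    obtain ⟨a, ha⟩ : ∃ a, a = da Φ l T := ⟨_, rfl⟩
    have has : ContDiff ℝ ∞ a := by rw [ha]; exact da_smooth hΦ.smooth l T
    have hac : HasCompactSupport a := by rw [ha]; exact da_supp hΦ hT0
    have hw := fw_test has hac hs k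
    have hwk := fw_weak has hac hs k
    have hgc := fg_cont has hs k
    have hgs := fg_supp hac hs k
    obtain ⟨g, hg⟩ : ∃ g, g = fg a s k := ⟨_, rfl⟩
    rw [← hg] at hwk hgc hgs
    obtain ⟨u, hu⟩ : ∃ u : ℝ, u = 1 / 4 / lam * T := ⟨_, rfl⟩
    obtain ⟨v, hv⟩ : ∃ v : ℝ, v = 1 / 4 * T := ⟨_, rfl⟩
    have hl0 : 0 < lam := by linarith
    have huv : u < v := by
      rw [hu, hv]
      refine mul_lt_mul_of_pos_right ?_ hT0
      rw [div_lt_iff₀ hl0]
      linarith
    have hu0 : 0 ≤ u := by rw [hu]; positivity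
    -- the two pieces
    obtain ⟨g1, hg1⟩ : ∃ g1 : Pt D → Fin D → ℝ, g1 = fun p i => ramp u v (p.1 l) * g p i :=
      ⟨_, rfl⟩
    obtain ⟨g2, hg2⟩ : ∃ g2 : Pt D → Fin D → ℝ, g2 = fun p i => (1 - ramp u v (p.1 l)) * g p i :=
      ⟨_, rfl⟩
    have hsum : g = g1 + g2 := by
      rw [hg1, hg2]
      funext p i
      simp only [Pi.add_apply]
      ring
    have hζ : Continuous fun p : Pt D => ramp u v (p.1 l) :=
      (ramp_cont u v).comp ((continuous_apply l).comp continuous_fst)
    have c1 : Continuous g1 := by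
      rw [hg1]
      exact continuous_pi fun i => hζ.mul ((continuous_apply i).comp hgc)
    have c2 : Continuous g2 := by
      rw [hg2]
      exact continuous_pi fun i => (continuous_const.sub hζ).mul ((continuous_apply i).comp hgc)
    have z1 : ∀ p, g p = 0 → g1 p = 0 := by
      intro p hp
      rw [hg1]
      funext i
      simp only [hp, Pi.zero_apply, mul_zero]
    have z2 : ∀ p, g p = 0 → g2 p = 0 := by
      intro p hp
      rw [hg2]
      funext i
      simp only [hp, Pi.zero_apply, mul_zero]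
    have s1 : HasCompactSupport g1 := hgs.mono fun p hp h => hp (z1 p h)
    have s2 : HasCompactSupport g2 := hgs.mono fun p hp h => hp (z2 p h)
    have n1 : ∀ q, g1 q ≠ 0 → u ≤ q.1 l := by
      intro q hq
      by_contra h
      apply hq
      rw [hg1]
      funext i
      simp only [ramp_zero huv (not_le.1 h).le, zero_mul, Pi.zero_apply]
    have n2 : ∀ q, g2 q ≠ 0 → T ≤ ‖q.1‖ := by
      intro q hq
      by_contra h
      apply hq
      by_cases h' : q.1 l < v
      · apply z2
        rw [hg, ha]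
        exact fg_in hΦ hlk hT0 s (not_le.1 h) (by rw [hv] at h'; exact h')
      · rw [hg2]
        funext i
        simp only [ramp_one huv (not_lt.1 h'), sub_self, zero_mul, Pi.zero_apply]
    have hgb : ∀ p ∈ Slb D, ∀ j, |g p j| ≤ B * E T := by
      intro p hp j
      rw [hg, ha, hE]
      exact hB T hT1 s hs p hp j
    have hgf : ∀ p : Pt D, 2 * T < ‖p.1‖ → g p = 0 := by
      intro p hp
      rw [hg, ha]
      exact fg_far hΦ hT0 s hp
    have q1 : QC g1 ≤ D * (B * E T) ^ 2 * (2 * (2 * T)) ^ D := by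
      refine QC_le_sq (CcF.of c1 s1) (by positivity) (fun p hp i => ?_)
        (fun p hp => z1 p (hgf p hp))
      rw [hg1]
      simp only
      rw [abs_mul, abs_of_nonneg (ramp_nonneg _ _ _)]
      exact (mul_le_of_le_one_left (abs_nonneg _) (ramp_le _ _ _)).trans (hgb p hp i)
    have q2 : QC g2 ≤ D * (B * E T) ^ 2 * (2 * (2 * T)) ^ D := by
      refine QC_le_sq (CcF.of c2 s2) (by positivity) (fun p hp i => ?_)
        (fun p hp => z2 p (hgf p hp))
      rw [hg2]
      simp only
      rw [abs_mul, abs_of_nonneg (by linarith [ramp_le u v (p.1 l)])]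
      refine (mul_le_of_le_one_left (abs_nonneg _) ?_).trans (hgb p hp i)
      linarith [ramp_nonneg u v (p.1 l)]
    have hsq : ∀ x, x ≤ D * (B * E T) ^ 2 * (2 * (2 * T)) ^ D →
        √(QC f * x) ≤ √V * (4 * T) ^ D * E T := by
      intro x hx
      have h1 : QC f * x ≤ V * ((4 * T) ^ D) ^ 2 * E T ^ 2 := by
        have h2 : (4 * T) ^ D ≤ ((4 * T) ^ D) ^ 2 := by
          have : 1 ≤ (4 * T) ^ D := one_le_pow₀ (by linarith)
          nlinarith
        calc QC f * x ≤ QC f * (D * (B * E T) ^ 2 * (2 * (2 * T)) ^ D) :=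
              mul_le_mul_of_nonneg_left hx hQf
          _ = QC f * (D * (B * E T) ^ 2) * (4 * T) ^ D := by ring
          _ ≤ QC f * (D * (B * E T) ^ 2) * ((4 * T) ^ D) ^ 2 :=
              mul_le_mul_of_nonneg_left h2 (by positivity)
          _ = _ := by rw [hV]; ring
      refine (Real.sqrt_le_sqrt h1).trans (le_of_eq ?_)
      rw [Real.sqrt_mul (by positivity), Real.sqrt_mul hV0, Real.sqrt_sq (by positivity),
        Real.sqrt_sq (hE0 T).le]
    -- the bound of the first piece
    have b1 : ∀ g' : Pt D → Fin D → ℝ, Continuous g' → HasCompactSupport g' →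
        (∀ q, g' q ≠ 0 → u ≤ q.1 l) → QC g' = QC g1 →
        QC (f + g') - QC f - QC g' ≤
          |C| * Real.exp (-(m * (1 / 4 / lam * T))) * (√V * (4 * T) ^ D * E T) := by
      intro g' h1 h2 h3 h4
      have h5 := hC f g' u hfc h1 hfs h2 hu0 (fun p hp => (hfn p hp).1) h3
      rw [h4, hu] at h5
      rw [h4]
      refine (le_abs_self _).trans (h5.trans ?_)
      exact mul_le_mul (mul_le_mul_of_nonneg_right (le_abs_self C) (Real.exp_pos _).le)
        (hsq _ q1) (Real.sqrt_nonneg _) (by positivity)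
    -- the bound of the second piece
    have b2 : ∀ g' : Pt D → Fin D → ℝ, Continuous g' → HasCompactSupport g' →
        (∀ q, g' q ≠ 0 → T ≤ ‖q.1‖) → QC g' = QC g2 →
        QC (f + g') - QC f - QC g' ≤
          |C1| * Real.exp (-(T - 5)) * (√V * (4 * T) ^ D * E T) := by
      intro g' h1 h2 h3 h4
      have h5 := hC1 f g' (T - 5) hfc h1 hfs h2 (by linarith) (fun p q hp hq => by
        rw [dist_comm, dist_eq_norm]
        have := norm_sub_norm_le q.1 p.1
        have := (hfn p hp).2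
        have := h3 q hq
        linarith)
      rw [h4, one_mul] at h5
      rw [h4]
      refine (le_abs_self _).trans (h5.trans ?_)
      exact mul_le_mul (mul_le_mul_of_nonneg_right (le_abs_self C1) (Real.exp_pos _).le)
        (hsq _ q2) (Real.sqrt_nonneg _) (by positivity)
    have hpair : JC f (fw a s k) = c0 := by
      rw [hf, hc0]
      refine pair_gen hφs hφc l k hs fun y hy => ?_
      obtain ⟨h1, h2⟩ := hφn y hy
      rw [ha]
      exact da_in hΦ hT0 (h2.trans hT) (h1.trans (by positivity))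
    have neg : ∀ {g' : Pt D → Fin D → ℝ} {q : Pt D}, (-g') q ≠ 0 → g' q ≠ 0 := by
      intro g' q h1 h2
      apply h1
      rw [Pi.neg_apply, h2, neg_zero]
    rw [← hpair, add_mul]
    refine dual hfF (CcF.of c1 s1) (CcF.of c2 s2) hw (by rwa [← hsum])
      (b1 g1 c1 s1 n1 rfl) (b1 (-g1) c1.neg s1.neg (fun q hq => n1 q (neg hq)) (QC_neg g1))
      (b2 g2 c2 s2 n2 rfl) (b2 (-g2) c2.neg s2.neg (fun q hq => n2 q (neg hq)) (QC_neg g2))
  -- the limit
  have hl0 : 0 < lam := by linarith
  obtain ⟨δ1, hδ1⟩ : ∃ δ1, δ1 = m * (1 / 4 / lam) - Real.pi / 2 * (lam * (1 / 4)) := ⟨_, rfl⟩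
  have hδ1' : 0 < δ1 := by
    have h1 : m * (1 / 4 / lam) - Real.pi / 2 * (lam * (1 / 4)) =
        (m - Real.pi / 2 * lam ^ 2) / (4 * lam) := by
      field_simp
    rw [hδ1, h1]
    exact div_pos (by linarith) (by positivity)
  obtain ⟨δ2, hδ2⟩ : ∃ δ2, δ2 = 1 - Real.pi / 2 * (lam * (1 / 4)) := ⟨_, rfl⟩
  have hδ2' : 0 < δ2 := by
    rw [hδ2]
    nlinarith
  have gen : ∀ δ : ℝ, 0 < δ → Tendsto (fun T : ℝ => (4 * T) ^ D * Real.exp (-(δ * T))) atTop
      (𝓝 0) := by
    intro δ hδ
    have h1 := (Real.tendsto_pow_mul_exp_neg_atTop_nhds_zero D).comp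
      (tendsto_id.const_mul_atTop hδ)
    have h2 := h1.const_mul ((4 / δ) ^ D)
    rw [mul_zero] at h2
    refine h2.congr fun T => ?_
    simp only [Function.comp, id]
    rw [← mul_assoc, ← mul_pow]
    congr 2
    field_simp
  have lim : Tendsto (fun T : ℝ => (|C| * Real.exp (-(m * (1 / 4 / lam * T))) +
      |C1| * Real.exp (-(T - 5))) * (√V * (4 * T) ^ D * E T)) atTop (𝓝 0) := by
    have h1 := ((gen δ1 hδ1').const_mul (|C| * √V)).add
      ((gen δ2 hδ2').const_mul (|C1| * Real.exp 5 * √V))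
    rw [mul_zero, mul_zero, add_zero] at h1
    refine h1.congr fun T => ?_
    have h3 : Real.exp (-(δ1 * T)) = Real.exp (-(m * (1 / 4 / lam * T))) * E T := by
      rw [hE]
      simp only
      rw [← Real.exp_add, hδ1]
      congr 1
      ring
    have h4 : Real.exp 5 * Real.exp (-(δ2 * T)) = Real.exp (-(T - 5)) * E T := by
      rw [hE]
      simp only
      rw [← Real.exp_add, ← Real.exp_add, hδ2]
      congr 1
      ring
    calc |C| * √V * ((4 * T) ^ D * Real.exp (-(δ1 * T))) +
          |C1| * Real.exp 5 * √V * ((4 * T) ^ D * Real.exp (-(δ2 * T)))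
        = |C| * √V * (4 * T) ^ D * Real.exp (-(δ1 * T)) +
          |C1| * √V * (4 * T) ^ D * (Real.exp 5 * Real.exp (-(δ2 * T))) := by ring
      _ = _ := by
          rw [h3, h4]
          ring
  have h5 := ge_of_tendsto lim (b := c0) (by
    filter_upwards [eventually_ge_atTop 5] with T h1
    exact key T h1)
  linarith

end

end Pool.Agent.N986.CL
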