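import Pool.Agent.N986.CL.Rate
import Pool.Agent.N839.C.Rate

/-!
# Duality with a test field
-/

set_option autoImplicit false
set_option linter.unusedSectionVars false
set_option linter.unusedVariables false
set_option linter.style.haveILetI false

open MeasureTheory Set Filter Topology
open scoped ContDiff

namespace Pool.Agent.N986.CL

open Pool.Agent.N990.C (Pt Slb eh ez pd dC EC IsTest JC QC)
open Pool.Agent.N839.C (Cc CcF PR BC N2 NM NM_exists lc lc_test JC_PR PR_lc EC_lc PR_comm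
  EC_nonneg QC_nonneg le_QC int_slb u_cc pr_cc JC_le)

noncomputable section

variable {D : ℕ}

lemma CcF.add' {f g : Pt D → Fin D → ℝ} (hf : CcF f) (hg : CcF g) : CcF (f + g) := fun i =>
  (hf i).add (hg i)

lemma PR_add {f g u : Pt D → Fin D → ℝ} (hf : CcF f) (hg : CcF g) (hu : CcF u) :
    PR (f + g) u = PR f u + PR g u := by
  rw [PR_comm, PR_comm f, PR_comm g]
  have h := PR_lc hu hf hg 1
  rw [one_mul] at h
  rw [← h]
  congr 1
  funext p i
  simp [lc]

lemma EB_eq (w u : Pt D → Fin D → ℝ) : EB w u = BC w u := rfl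

lemma BC_comm (u w : Pt D → Fin D → ℝ) : BC u w = BC w u := by
  rw [← EB_eq, ← EB_eq]
  unfold EB
  refine integral_congr_ae (Eventually.of_forall fun p => ?_)
  unfold dB
  beta_reduce
  congr 1
  · exact Finset.sum_congr rfl fun i _ => mul_comm _ _
  · refine Finset.sum_congr rfl fun i _ => Finset.sum_congr rfl fun j _ => ?_
    split_ifs
    · exact mul_comm _ _
    · rfl

/-- lower bound of the covariance by an almost maximiser -/
lemma pol_low {f g : Pt D → Fin D → ℝ} (hf : CcF f) (hg : CcF g) {s : ℝ} (hs : 0 ≤ s)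
    {u u' : Pt D → Fin D → ℝ} (hu : NM f s u) (hu' : NM g s u') :
    2 * PR g u ≤ QC (f + g) - QC f - QC g + 2 * s ^ 2 + 2 * (s * √(EC u')) := by
  have h1 := le_QC (CcF.add' hf hg) (lc_test hu.1 hu'.1 1)
  rw [JC_PR, PR_add hf hg (CcF.test (lc_test hu.1 hu'.1 1)), PR_lc hf (CcF.test hu.1)
    (CcF.test hu'.1), PR_lc hg (CcF.test hu.1) (CcF.test hu'.1), EC_lc hu.1 hu'.1] at h1
  have h2 := hu.2
  have h3 := hu'.2
  rw [JC_PR] at h2 h3
  have h4 := (abs_le.1 (hu.euler hf hs hu'.1)).1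
  nlinarith

lemma PR_neg (g u : Pt D → Fin D → ℝ) : PR (-g) u = -PR g u := by
  unfold PR
  rw [← integral_neg]
  refine integral_congr_ae (Eventually.of_forall fun p => ?_)
  simp

/-- two-sided version -/
lemma pol_abs {f g : Pt D → Fin D → ℝ} (hf : CcF f) (hg : CcF g) {s : ℝ} (hs : 0 < s)
    {u : Pt D → Fin D → ℝ} (hu : NM f s u) {b : ℝ}
    (h1 : QC (f + g) - QC f - QC g ≤ b) (h2 : QC (f + -g) - QC f - QC (-g) ≤ b) :
    2 * |PR g u| ≤ b + 2 * s ^ 2 + 2 * (s * (√(QC g) + √(QC (-g)) + s)) := by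
  have hg' : CcF (-g) := fun i => (hg i).neg
  obtain ⟨u1, hu1⟩ := NM_exists g hs
  obtain ⟨u2, hu2⟩ := NM_exists (-g) hs
  have e1 := hu1.energy' hg hs.le
  have e2 := hu2.energy' hg' hs.le
  have t1 := pol_low hf hg hs.le hu hu1
  have t2 := pol_low hf hg' hs.le hu hu2
  rw [PR_neg] at t2
  have s1 := Real.sqrt_nonneg (QC g)
  have s2 := Real.sqrt_nonneg (QC (-g))
  have k1 : s * √(EC u1) ≤ s * (√(QC g) + √(QC (-g)) + s) :=
    mul_le_mul_of_nonneg_left (by linarith) hs.le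
  have k2 : s * √(EC u2) ≤ s * (√(QC g) + √(QC (-g)) + s) :=
    mul_le_mul_of_nonneg_left (by linarith) hs.le
  rcases abs_cases (PR g u) with ⟨h, _⟩ | ⟨h, _⟩ <;> rw [h] <;> linarith

/-- **Duality.** -/
theorem dual {f g1 g2 w : Pt D → Fin D → ℝ} (hf : CcF f) (hg1 : CcF g1) (hg2 : CcF g2)
    (hw : IsTest w) (h : ∀ u, IsTest u → JC (g1 + g2) u = 2 * EB w u) {b1 b2 : ℝ}
    (h1 : QC (f + g1) - QC f - QC g1 ≤ b1) (h1' : QC (f + -g1) - QC f - QC (-g1) ≤ b1)
    (h2 : QC (f + g2) - QC f - QC g2 ≤ b2) (h2' : QC (f + -g2) - QC f - QC (-g2) ≤ b2) :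
    JC f w ≤ b1 + b2 := by
  refine Pool.Agent.N839.C.lim_s (F := fun s => 2 * (s * √(EC w)) +
    (b1 + 2 * s ^ 2 + 2 * (s * (√(QC g1) + √(QC (-g1)) + s))) +
    (b2 + 2 * s ^ 2 + 2 * (s * (√(QC g2) + √(QC (-g2)) + s)))) (by fun_prop)
    (fun s hs hs1 => ?_) (by simp)
  obtain ⟨u, hu⟩ := NM_exists f hs
  have e1 := (abs_le.1 (hu.euler hf hs.le hw)).2
  have e2 := h u hu.1
  rw [JC_PR, PR_add hg1 hg2 (CcF.test hu.1), EB_eq, BC_comm] at e2
  have t1 := pol_abs hf hg1 hs hu h1 h1'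
  have t2 := pol_abs hf hg2 hs hu h2 h2'
  have k1 := le_abs_self (PR g1 u)
  have k2 := le_abs_self (PR g2 u)
  rw [JC_PR]
  linarith

lemma QC_neg (g : Pt D → Fin D → ℝ) : QC (-g) = QC g := by
  have key : ∀ g : Pt D → Fin D → ℝ, {t | ∃ u, IsTest u ∧ t = JC (-g) u - EC u} ⊆
      {t | ∃ u, IsTest u ∧ t = JC g u - EC u} := by
    rintro g t ⟨u, hu, rfl⟩
    refine ⟨(-1 : ℝ) • u, Pool.Agent.N990.C.IsTest.smul hu (-1), ?_⟩
    rw [Pool.Agent.N990.C.JC_smul, Pool.Agent.N990.C.EC_smul hu, JC_PR, JC_PR, PR_neg]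
    ring
  unfold QC
  congr 1
  apply Subset.antisymm (key g)
  have h := key (-g)
  rwa [neg_neg] at h

/-- the variance is at most the square of the norm -/
lemma QC_le_sq {g : Pt D → Fin D → ℝ} (hg : CcF g) {M r : ℝ} (hr : 0 ≤ r)
    (h1 : ∀ p ∈ Slb D, ∀ i, |g p i| ≤ M) (h2 : ∀ p, r < ‖p.1‖ → g p = 0) :
    QC g ≤ D * M ^ 2 * (2 * r) ^ D := by
  have e0 : QC g ≤ ∑ i, ∫ p in Slb D, g p i ^ 2 := by
    unfold QC
    refine csSup_le ⟨_, 0, Pool.Agent.N990.C.IsTest.zero, rfl⟩ ?_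
    rintro t ⟨u, hu, rfl⟩
    exact JC_le hg hu
  refine e0.trans ?_
  have hS : MeasurableSet (Metric.closedBall (0 : Fin D → ℝ) r ×ˢ Icc (0 : ℝ) 1) :=
    Metric.isClosed_closedBall.measurableSet.prod measurableSet_Icc
  have hv : (volume : Measure (Pt D)).real (Metric.closedBall (0 : Fin D → ℝ) r ×ˢ Icc (0 : ℝ) 1) =
      (2 * r) ^ D := by
    rw [Measure.volume_eq_prod, measureReal_prod_prod, Measure.real, Real.volume_pi_closedBall _ hr,
      Real.volume_real_Icc, sub_zero, max_eq_left zero_le_one, mul_one, Fintype.card_fin,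
      ENNReal.toReal_ofReal (by positivity)]
  have hfin : (volume : Measure (Pt D)) (Metric.closedBall (0 : Fin D → ℝ) r ×ˢ Icc (0 : ℝ) 1) < ⊤ := by
    rw [Measure.volume_eq_prod, Measure.prod_prod]
    exact ENNReal.mul_lt_top measure_closedBall_lt_top measure_Icc_lt_top
  have e1 : ∀ i, ∫ p in Slb D, g p i ^ 2 ≤ M ^ 2 * (2 * r) ^ D := by
    intro i
    have e3 : ∫ p in Slb D, g p i ^ 2 =
        ∫ p in (Metric.closedBall (0 : Fin D → ℝ) r ×ˢ Icc (0 : ℝ) 1), g p i ^ 2 := by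
      refine setIntegral_eq_of_subset_of_forall_sdiff_eq_zero meas_slb (fun p hp => hp.2)
        fun p hp => ?_
      have hy : r < ‖p.1‖ := by
        by_contra hc
        refine hp.2 ⟨?_, hp.1⟩
        rw [Metric.mem_closedBall, dist_zero_right]
        exact not_lt.1 hc
      rw [h2 _ hy]
      simp
    have e4 := norm_setIntegral_le_of_norm_le_const (f := fun p => g p i ^ 2) (C := M ^ 2) hfin
      fun p hp => by
        rw [Real.norm_eq_abs, abs_pow]
        exact pow_le_pow_left₀ (abs_nonneg _) (h1 p hp.2 i) 2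
    rw [hv, ← e3] at e4
    exact (le_abs_self _).trans e4
  refine (Finset.sum_le_sum fun i _ => e1 i).trans (le_of_eq ?_)
  rw [Finset.sum_const, Finset.card_univ, Fintype.card_fin, nsmul_eq_mul]
  ring

end

end Pool.Agent.N986.CL
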