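import Pool.Agent.N109.CL.Ax
import Pool.Agent.N986.CL.Def

/-!
# The continuum limit of the slab theory, gauge invariant form
-/

set_option autoImplicit false
set_option linter.unusedSectionVars false
set_option linter.unusedVariables false
set_option linter.style.haveILetI false

open MeasureTheory Matrix Finset Filter Topology
open scoped Matrix.Norms.Frobenius ENNReal

namespace Pool.Agent.N986.CL

open Pool.Agent.N990
open Pool.Agent.N109.Slab (SF Cf box mem_box box_card nsq pr sc OneP mt_inj)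
open Pool.Agent.N990.C (QC Pt)
open Pool.Agent.N109.CL (fL ax_tendsto)
open Pool.Agent.N986.SL (Link AxGibbs Dlr chi chi_cont chi_conj ax ax_meas hv)

noncomputable section

variable {N D : ℕ} {G : Subgroup (UU N)}

/-- the curve of a tangent vector -/
lemma exists_curve' {X : Mt N} (hX : ∀ s : ℝ, ∃ g : G, mt g = NormedSpace.exp (s • X))
    (nX : ‖X‖ = 1) : ∃ γ : ℝ → G, OneP X γ 1 := by
  choose γ hγ using hX
  refine ⟨γ, nX, ?_, zero_le_one, fun s hs => ?_⟩
  · apply mt_inj
    rw [hγ, zero_smul, NormedSpace.exp_zero, mt_one]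
  · rw [hγ, one_mul]
    have h1 := exp_second (G := G) (w := s • X) (fun t => ⟨γ (t * s), by rw [hγ, smul_smul]⟩)
    refine h1.trans (le_of_eq ?_)
    rw [norm_smul, nX, mul_one, Real.norm_eq_abs, sq_abs]

/-- the number of orthonormal matrices is bounded -/
lemma orth_card {n : ℕ} {X : Fin n → Mt N}
    (hort : ∀ i j, ip (X i) (X j) = if i = j then 1 else 0) : n ≤ 2 * (N * N) := by
  have h1 : LinearIndependent ℝ X := by
    rw [Fintype.linearIndependent_iff]
    intro c hc i
    have h2 : ip (X i) (∑ j, c j • X j) = c i := by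
      rw [ip_sum_right]
      simp only [ip_smul_right, hort]
      simp
    rw [hc, ip_zero_right] at h2
    exact h2.symm
  have h3 := h1.fintype_card_le_finrank
  rw [Fintype.card_fin] at h3
  have h4 : Module.finrank ℝ (Mt N) = 2 * (N * N) := by
    have h5 : Module.finrank ℝ (Mt N) = Module.finrank ℝ ℂ * Module.finrank ℂ (Mt N) :=
      (Module.finrank_mul_finrank ℝ ℂ (Mt N)).symm
    rw [h5, Complex.finrank_real_complex, Module.finrank_matrix]
    simp
  omega

/-- the smeared dressed field -/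
def smr {L : ℕ} (β : ℝ) (X : Mt N) (f : Pt D → Fin D → ℝ) (U : Link D L → G) : ℝ :=
  √β * ((L : ℝ) ^ (-(((D : ℝ) + 3) / 2)) * ∑' x : Fin D → ℤ, ∑ i : Fin D, ∑ s : Fin L,
    f (fun j => (x j : ℝ) / L, ((s : ℝ) + 1) / L) i * ip X (mt (ax U x (i, s)) - 1))

lemma smr_eq {L : ℕ} (hL : 1 ≤ L) (β : ℝ) (X : Mt N) {f : Pt D → Fin D → ℝ} {K : ℕ}
    (hK : ∀ p, f p ≠ 0 → ‖p‖ ≤ K) (U : Link D L → G) :
    smr β X f U = √β * pr (box D (K * L)) (fL f L) (sc X (ax U)) := by
  have hL0 : (0 : ℝ) < L := by exact_mod_cast hL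
  unfold smr
  congr 1
  rw [tsum_eq_sum (s := box D (K * L))]
  · unfold pr
    rw [Finset.mul_sum]
    refine Finset.sum_congr rfl fun x _ => ?_
    rw [Finset.mul_sum, Fintype.sum_prod_type]
    refine Finset.sum_congr rfl fun i _ => ?_
    rw [Finset.mul_sum]
    refine Finset.sum_congr rfl fun s _ => ?_
    show _ = (L : ℝ) ^ (-(((D : ℝ) + 3) / 2)) *
      f (C.emb L (x, ((s : ℕ) : ℤ) + 1)) i * ip X (mt (ax U x (i, s)) - 1)
    rw [mul_assoc]
    congr 3
    unfold C.emb
    push_cast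
    rfl
  · intro x hx
    refine Finset.sum_eq_zero fun i _ => Finset.sum_eq_zero fun s _ => ?_
    have h1 : f (fun j => (x j : ℝ) / L, ((s : ℝ) + 1) / L) = 0 := by
      by_contra hne
      have h2 := hK _ hne
      rw [mem_box, not_forall] at hx
      obtain ⟨j, hj⟩ := hx
      have h3 : ‖(x j : ℝ) / L‖ ≤ K := by
        refine le_trans ?_ h2
        refine le_trans ?_ (norm_fst_le _)
        exact norm_le_pi_norm (fun j => (x j : ℝ) / L) j
      rw [Real.norm_eq_abs, abs_div, abs_of_pos hL0, div_le_iff₀ hL0] at h3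
      have h5 : |(x j : ℝ)| ≤ ((K * L : ℕ) : ℝ) := by push_cast; linarith
      rw [← Int.cast_abs, ← Int.cast_natCast, Int.cast_le, abs_le] at h5
      exact hj h5
    rw [h1]
    simp

variable [MeasurableSpace G] [BorelSpace G]

/-- **The continuum limit of the slab theory.** -/
theorem cl_gibbs (hG : IsClosed (G : Set (UU N))) (μ : Measure G) [IsProbabilityMeasure μ]
    [μ.IsMulLeftInvariant] : ∃ K : ℕ, ∀ b : ℕ → ℝ, (∀ᶠ L : ℕ in atTop, (L : ℝ) ^ K ≤ b L) →
    ∀ P : ∀ L, Measure (Link D L → G), (∀ᶠ L in atTop, Dlr μ chi (b L) (P L)) →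
    ∀ (n : ℕ) (X : Fin n → Mt N), (∀ j (s : ℝ), ∃ g : G, mt g = NormedSpace.exp (s • X j)) →
    (∀ i j, ip (X i) (X j) = if i = j then 1 else 0) →
    ∀ f : Fin n → Pt D → Fin D → ℝ, (∀ j, Continuous (f j)) → (∀ j, HasCompactSupport (f j)) →
    Tendsto (fun L => ∫ U, Complex.exp (Complex.I * ((∑ j, smr (b L) (X j) (f j) U : ℝ) : ℂ)) ∂(P L))
      atTop (𝓝 (Complex.exp (-(((∑ j, QC (f j)) / 2 : ℝ) : ℂ)))) := by
  haveI : CompactSpace G := isCompact_iff_compactSpace.1 hG.isCompact
  haveI : SecondCountableTopology (UU N) := TopologicalSpace.Subtype.secondCountableTopology _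
  haveI : SecondCountableTopology G := TopologicalSpace.Subtype.secondCountableTopology _
  haveI : μ.IsMulRightInvariant := Pool.Agent.N986.SL.right_invariant μ
  obtain ⟨c, hc⟩ : ∃ c, ∀ p : G, |chi p| ≤ c := by
    obtain ⟨c, hc⟩ := isCompact_univ.exists_bound_of_continuousOn (chi_cont (G := G)).continuousOn
    exact ⟨c, fun p => hc p (Set.mem_univ p)⟩
  choose K hK using fun n => ax_tendsto (D := D) hG μ n (κ := 1) zero_le_one
  obtain ⟨K', hK'⟩ : ∃ K' : ℕ, ∀ n ≤ 2 * (N * N), K n ≤ K' := by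
    refine ⟨∑ n ∈ Finset.range (2 * (N * N) + 1), K n, fun n hn => ?_⟩
    exact Finset.single_le_sum (f := K) (fun _ _ => Nat.zero_le _) (Finset.mem_range.2 (by omega))
  refine ⟨K', fun b hb P hP n X hX hort f hf hfs => ?_⟩
  have hn := orth_card hort
  have nX : ∀ j, ‖X j‖ = 1 := by
    intro j
    have h1 := hort j j
    rw [if_pos rfl, ip_self] at h1
    exact (pow_eq_one_iff_of_nonneg (norm_nonneg _) two_ne_zero).1 h1
  choose γ hγ using fun j => exists_curve' (hX j) (nX j)
  have hbd : ∀ j, ∃ R : ℕ, ∀ p, f j p ≠ 0 → ‖p‖ ≤ R := by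
    intro j
    obtain ⟨B, hB⟩ := (hfs j).isCompact.isBounded.exists_norm_le
    obtain ⟨R, hR⟩ := exists_nat_ge B
    exact ⟨R, fun p hp => (hB p (subset_tsupport (f j) (Function.mem_support.2 hp))).trans hR⟩
  choose R0 hR0 using hbd
  obtain ⟨R, hR⟩ : ∃ R, R = ∑ j, R0 j := ⟨_, rfl⟩
  have hRK : ∀ j p, f j p ≠ 0 → ‖p‖ ≤ R := by
    intro j p hp
    refine (hR0 j p hp).trans ?_
    have : R0 j ≤ R := by
      rw [hR]
      exact Finset.single_le_sum (f := R0) (fun _ _ => Nat.zero_le _) (Finset.mem_univ j)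
    exact_mod_cast this
  have hbn : ∀ᶠ L : ℕ in atTop, (L : ℝ) ^ K n ≤ b L := by
    filter_upwards [hb, eventually_ge_atTop 1] with L h1 h2
    have hL : (1 : ℝ) ≤ L := by exact_mod_cast h2
    exact (pow_le_pow_right₀ hL (hK' n hn)).trans h1
  have hQ : ∀ᶠ L in atTop, AxGibbs μ chi (b L) ((P L).map ax) := by
    filter_upwards [hP] with L h1
    exact (Pool.Agent.N986.SL.Dlr.gibbs chi_cont h1).axial chi_conj chi_cont.measurable hc
  have h := hK n X γ hγ hort f hf R hRK b hbn (fun L => (P L).map ax) hQ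
  refine h.congr' ?_
  filter_upwards [eventually_ge_atTop 1] with L hL
  rw [integral_map ax_meas.aemeasurable]
  · refine integral_congr_ae (Eventually.of_forall fun U => ?_)
    simp only [smr_eq hL _ _ (hRK _), ← Finset.mul_sum]
  · refine Measurable.aestronglyMeasurable ?_
    refine Complex.measurable_exp.comp (Measurable.const_mul (Complex.measurable_ofReal.comp ?_) _)
    refine Measurable.const_mul (Finset.measurable_fun_sum _ fun j _ => ?_) _
    exact Pool.Agent.N109.Slab.pr_meas (X j) _ _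

end

end Pool.Agent.N986.CL
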