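import Pool.Agent.N986.CL.Sharp

/-!
# Integration by parts in the slab
-/

set_option autoImplicit false
set_option linter.unusedSectionVars false
set_option linter.unusedVariables false

open MeasureTheory Set Filter Topology

namespace Pool.Agent.N986.CL

open Pool.Agent.N990.C (Pt Slb eh ez pd dC EC IsTest JC QC)
open Pool.Agent.N839.C (Cc u_cc pd_cc dC_cc int_slb)

noncomputable section

variable {D : ℕ}

lemma comp_fderiv {u : Pt D → Fin D → ℝ} (hu : IsTest u) (i : Fin D) (p : Pt D) :
    HasFDerivAt (fun p => u p i) ((ContinuousLinearMap.proj i).comp (fderiv ℝ u p)) p :=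
  (hasFDerivAt_apply (𝕜 := ℝ) i (u p)).comp p (hu.smooth.differentiable (by norm_num) p).hasFDerivAt

lemma slb_add_eh {p : Pt D} {j : Fin D} {t : ℝ} : p + t • eh j ∈ Slb D ↔ p ∈ Slb D := by
  unfold Slb eh
  simp

lemma meas_slb : MeasurableSet (Slb D) := by
  have : (Slb D : Set (Pt D)) = (fun p : Pt D => p.2) ⁻¹' Icc 0 1 := rfl
  rw [this]
  exact measurable_snd measurableSet_Icc

/-- integration by parts in a horizontal direction -/
lemma ibp_h {F F' : Pt D → ℝ} {u : Pt D → Fin D → ℝ} (hu : IsTest u) (i j : Fin D)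
    (hF : Continuous F) (hF' : Continuous F') (hd : ∀ p, HasLineDerivAt ℝ F (F' p) p (eh j)) :
    ∫ p in Slb D, F p * pd u (eh j) i p = -∫ p in Slb D, F' p * u p i := by
  have hS := meas_slb (D := D)
  have e1 : ∀ g h : Pt D → ℝ, ∫ p in Slb D, g p * h p = ∫ p, (Slb D).indicator g p * h p := by
    intro g h
    rw [← integral_indicator hS]
    refine integral_congr_ae (Eventually.of_forall fun p => ?_)
    simp only [indicator]
    split_ifs
    · rfl
    · rw [zero_mul]
  have e2 : ∀ g h : Pt D → ℝ, Cc (fun p => g p * h p) →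
      Integrable (fun p => (Slb D).indicator g p * h p) := by
    intro g h hc
    have h1 := hc.int.indicator hS
    refine h1.congr (Eventually.of_forall fun p => ?_)
    simp only [indicator]
    split_ifs
    · rfl
    · rw [zero_mul]
  have cc : ∀ g h : Pt D → ℝ, Continuous g → Cc h → Cc (fun p => g p * h p) := by
    intro g h hg hh
    have := hh.mul hg
    simpa only [mul_comm] using this
  rw [e1, e1]
  haveI : (volume : Measure (Pt D)).IsAddHaarMeasure := by
    show ((volume : Measure (Fin D → ℝ)).prod (volume : Measure ℝ)).IsAddHaarMeasure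
    infer_instance
  refine integral_bilinear_hasLineDerivAt_right_eq_neg_left_of_integrable
    (f := (Slb D).indicator F) (f' := (Slb D).indicator F') (g := fun p => u p i)
    (g' := fun p => pd u (eh j) i p) (v := eh j) (B := ContinuousLinearMap.mul ℝ ℝ)
    (μ := (volume : Measure (Pt D)))
    (e2 _ _ (cc _ _ hF' (u_cc hu i))) (e2 _ _ (cc _ _ hF (pd_cc hu _ i)))
    (e2 _ _ (cc _ _ hF (u_cc hu i))) (fun p _ => ?_) (fun p _ => ?_)
  · by_cases hp : p ∈ Slb D
    · rw [indicator_of_mem hp]
      have h1 := hd p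
      unfold HasLineDerivAt at h1 ⊢
      refine h1.congr_of_eventuallyEq (Eventually.of_forall fun t => ?_)
      show (Slb D).indicator F (p + t • eh j) = F (p + t • eh j)
      rw [indicator_of_mem (slb_add_eh.2 hp)]
    · rw [indicator_of_notMem hp]
      unfold HasLineDerivAt
      refine (hasDerivAt_const (0 : ℝ) (0 : ℝ)).congr_of_eventuallyEq
        (Eventually.of_forall fun t => ?_)
      show (Slb D).indicator F (p + t • eh j) = 0
      rw [indicator_of_notMem]
      rwa [slb_add_eh]
  · exact (comp_fderiv hu i p).hasLineDerivAt (eh j)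

/-- integration by parts in the vertical direction -/
lemma ibp_v {a : (Fin D → ℝ) → ℝ} (ha : Continuous a) {u : Pt D → Fin D → ℝ} (hu : IsTest u)
    (i : Fin D) {s : ℝ → ℝ} (hs : Continuous s)
    (hs1 : ∀ z ∈ Icc (0 : ℝ) 1, s z = Real.pi / 2 * Real.cos (Real.pi / 2 * z)) :
    ∫ p in Slb D, a p.1 * s p.2 * pd u (ez D) i p =
      ∫ p in Slb D, a p.1 * ((Real.pi / 2) ^ 2 * Real.sin (Real.pi / 2 * p.2)) * u p i := by
  have cc : ∀ g h : Pt D → ℝ, Continuous g → Cc h → Cc (fun p => g p * h p) := by
    intro g h hg hh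
    have := hh.mul hg
    simpa only [mul_comm] using this
  have c1 : Continuous fun p : Pt D => a p.1 * s p.2 :=
    (ha.comp continuous_fst).mul (hs.comp continuous_snd)
  have c2 : Continuous fun p : Pt D =>
      a p.1 * ((Real.pi / 2) ^ 2 * Real.sin (Real.pi / 2 * p.2)) := by
    refine (ha.comp continuous_fst).mul ?_
    fun_prop
  rw [int_slb (cc _ _ c1 (pd_cc hu _ i)), int_slb (cc _ _ c2 (u_cc hu i))]
  refine integral_congr_ae (Eventually.of_forall fun y => ?_)
  beta_reduce
  rw [integral_Icc_eq_integral_Ioc, integral_Icc_eq_integral_Ioc,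
    ← intervalIntegral.integral_of_le zero_le_one, ← intervalIntegral.integral_of_le zero_le_one]
  simp only [mul_assoc]
  rw [intervalIntegral.integral_const_mul, intervalIntegral.integral_const_mul]
  congr 1
  have h1 : ∫ z in (0 : ℝ)..1, s z * pd u (ez D) i (y, z) =
      ∫ z in (0 : ℝ)..1, Real.pi / 2 * Real.cos (Real.pi / 2 * z) * pd u (ez D) i (y, z) := by
    refine intervalIntegral.integral_congr fun z hz => ?_
    rw [uIcc_of_le zero_le_one] at hz
    beta_reduce
    rw [hs1 z hz]
  rw [h1]
  have hu1 : ∀ z : ℝ, HasDerivAt (fun z : ℝ => u (y, z) i) (pd u (ez D) i (y, z)) z := by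
    intro z
    have h2 : HasDerivAt (fun z : ℝ => ((y, z) : Pt D)) (ez D) z := by
      have := (hasDerivAt_const z y).prodMk (hasDerivAt_id z)
      exact this
    exact (comp_fderiv hu i (y, z)).comp_hasDerivAt z h2
  have hs2 : ∀ z : ℝ, HasDerivAt (fun z : ℝ => Real.pi / 2 * Real.cos (Real.pi / 2 * z))
      (-((Real.pi / 2) ^ 2 * Real.sin (Real.pi / 2 * z))) z := by
    intro z
    have h3 := ((Real.hasDerivAt_cos (Real.pi / 2 * z)).comp z
      ((hasDerivAt_id z).const_mul (Real.pi / 2))).const_mul (Real.pi / 2)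
    refine h3.congr_deriv ?_
    ring
  have hc1 : Continuous fun z : ℝ => pd u (ez D) i (y, z) :=
    (pd_cc hu (ez D) i).1.comp (by fun_prop)
  have hc2 : Continuous fun z : ℝ => -((Real.pi / 2) ^ 2 * Real.sin (Real.pi / 2 * z)) := by
    fun_prop
  have h4 := intervalIntegral.integral_mul_deriv_eq_deriv_mul (a := 0) (b := 1)
    (u := fun z : ℝ => Real.pi / 2 * Real.cos (Real.pi / 2 * z)) (v := fun z : ℝ => u (y, z) i)
    (fun z _ => hs2 z) (fun z _ => hu1 z) (hc2.intervalIntegrable 0 1) (hc1.intervalIntegrable 0 1)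
  rw [h4, hu.wall]
  simp only [mul_one, Real.cos_pi_div_two, mul_zero, zero_mul, Pi.zero_apply, sub_zero, zero_sub]
  rw [← intervalIntegral.integral_neg]
  refine intervalIntegral.integral_congr fun z hz => ?_
  beta_reduce
  ring

/-- symmetric sums -/
lemma sum_lt (X : Fin D → Fin D → ℝ) (h1 : ∀ i j, X i j = X j i) (h0 : ∀ i, X i i = 0) :
    ∑ i, ∑ j, (if i < j then X i j else 0) = (∑ i, ∑ j, X i j) / 2 := by
  have h2 : ∀ i j, X i j = (if i < j then X i j else 0) + if j < i then X j i else 0 := by
    intro i j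
    rcases lt_trichotomy i j with h | h | h
    · rw [if_pos h, if_neg (not_lt_of_gt h), add_zero]
    · subst h
      rw [if_neg (lt_irrefl _), h0, add_zero]
    · rw [if_pos h, if_neg (not_lt_of_gt h), zero_add, h1]
  have h3 : ∑ i, ∑ j, X i j = ∑ i, ∑ j, (if i < j then X i j else 0) +
      ∑ i, ∑ j, (if j < i then X j i else 0) := by
    rw [← Finset.sum_add_distrib]
    refine Finset.sum_congr rfl fun i _ => ?_
    rw [← Finset.sum_add_distrib]
    exact Finset.sum_congr rfl fun j _ => h2 i j
  rw [Finset.sum_comm (f := fun i j => if j < i then X j i else 0)] at h3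
  linarith

end

end Pool.Agent.N986.CL
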