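import Pool.Agent.N986.CL.Wk

/-!
# The mass of the continuum limit is at most `π / 2`
-/

set_option autoImplicit false
set_option linter.unusedSectionVars false
set_option linter.unusedVariables false
set_option linter.style.haveILetI false

open MeasureTheory Set Filter Topology
open scoped ContDiff

namespace Pool.Agent.N986.CL

open Pool.Agent.N990.C (Pt Slb eh ez pd dC EC IsTest JC QC)
open Pool.Agent.N839.C (Cc u_cc pd_cc dC_cc int_slb)

noncomputable section

variable {D : ℕ}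

lemma dC_eq_dB (u : Pt D → Fin D → ℝ) (p : Pt D) : dC u p = dB u u p := by
  unfold dC dB
  simp only [pow_two]

/-- bound of the energy -/
lemma fw_EC {a : (Fin D → ℝ) → ℝ} (ha : ContDiff ℝ ∞ a) (has : HasCompactSupport a) {s : ℝ → ℝ}
    (hs : Prof s) (k : Fin D) {M r : ℝ} (hr : 0 ≤ r) (h1 : ∀ y, |a y| ≤ M) (h2 : ∀ i y, |pa a i y| ≤ M)
    (h3 : ∀ y, r < ‖y‖ → a y = 0) (h4 : ∀ i y, r < ‖y‖ → pa a i y = 0) :
    EC (fw a s k) ≤ ((Real.pi / 2) ^ 2 + D) * M ^ 2 * (2 * r) ^ D := by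
  have hM : 0 ≤ M := (abs_nonneg _).trans (h1 0)
  have e1 : ∀ p, dC (fw a s k) p = a p.1 * deriv s p.2 * (a p.1 * deriv s p.2) +
      ∑ i, (s p.2 * pa a i p.1 * (s p.2 * pa a i p.1) - s p.2 * pa a i p.1 *
        (if i = k then s p.2 * pa a k p.1 else 0)) := by
    intro p
    rw [dC_eq_dB, fw_dB ha has hs, fw_ez ha has hs, if_pos rfl]
    simp only [fw_eh ha has hs, if_true]
  have e2 : ∀ p ∈ Slb D, ‖dC (fw a s k) p‖ ≤ ((Real.pi / 2) ^ 2 + D) * M ^ 2 := by
    intro p hp
    have hn : 0 ≤ dC (fw a s k) p := by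
      unfold dC
      refine add_nonneg (Finset.sum_nonneg fun i _ => sq_nonneg _)
        (Finset.sum_nonneg fun i _ => Finset.sum_nonneg fun j _ => ?_)
      split_ifs
      · exact sq_nonneg _
      · exact le_refl _
    rw [Real.norm_eq_abs, abs_of_nonneg hn, e1]
    have hs1 : |s p.2| ≤ 1 := by
      rw [hs.val p.2 hp]
      exact Real.abs_sin_le_one _
    have hs2 : |deriv s p.2| ≤ Real.pi / 2 := by
      rw [hs.der p.2 hp, abs_mul, abs_of_pos (by positivity)]
      exact mul_le_of_le_one_right (by positivity) (Real.abs_cos_le_one _)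
    have t1 : a p.1 * deriv s p.2 * (a p.1 * deriv s p.2) ≤ (Real.pi / 2) ^ 2 * M ^ 2 := by
      have : |a p.1 * deriv s p.2| ≤ M * (Real.pi / 2) := by
        rw [abs_mul]
        exact mul_le_mul (h1 _) hs2 (abs_nonneg _) hM
      calc a p.1 * deriv s p.2 * (a p.1 * deriv s p.2) = |a p.1 * deriv s p.2| ^ 2 := by
            rw [sq_abs]; ring
        _ ≤ (M * (Real.pi / 2)) ^ 2 := pow_le_pow_left₀ (abs_nonneg _) this 2
        _ = _ := by ring
    have t2 : ∀ i, s p.2 * pa a i p.1 * (s p.2 * pa a i p.1) - s p.2 * pa a i p.1 *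
        (if i = k then s p.2 * pa a k p.1 else 0) ≤ M ^ 2 := by
      intro i
      have : |s p.2 * pa a i p.1| ≤ 1 * M := by
        rw [abs_mul]
        exact mul_le_mul hs1 (h2 _ _) (abs_nonneg _) zero_le_one
      have t3 : s p.2 * pa a i p.1 * (s p.2 * pa a i p.1) ≤ M ^ 2 := by
        calc s p.2 * pa a i p.1 * (s p.2 * pa a i p.1) = |s p.2 * pa a i p.1| ^ 2 := by
              rw [sq_abs]; ring
          _ ≤ (1 * M) ^ 2 := pow_le_pow_left₀ (abs_nonneg _) this 2
          _ = _ := by ring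
      by_cases h : i = k
      · rw [if_pos h, h]
        have : (0 : ℝ) ≤ M ^ 2 := sq_nonneg _
        linarith
      · rw [if_neg h]
        linarith
    calc _ ≤ (Real.pi / 2) ^ 2 * M ^ 2 + ∑ i : Fin D, M ^ 2 :=
          add_le_add t1 (Finset.sum_le_sum fun i _ => t2 i)
      _ = _ := by
          rw [Finset.sum_const, Finset.card_univ, Fintype.card_fin, nsmul_eq_mul]
          ring
  have hS : MeasurableSet (Metric.closedBall (0 : Fin D → ℝ) r ×ˢ Icc (0 : ℝ) 1) :=
    Metric.isClosed_closedBall.measurableSet.prod measurableSet_Icc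
  have e3 : EC (fw a s k) =
      ∫ p in (Metric.closedBall (0 : Fin D → ℝ) r ×ˢ Icc (0 : ℝ) 1), dC (fw a s k) p := by
    unfold EC
    refine setIntegral_eq_of_subset_of_forall_sdiff_eq_zero meas_slb (fun p hp => hp.2)
      fun p hp => ?_
    have hy : r < ‖p.1‖ := by
      by_contra hc
      refine hp.2 ⟨?_, hp.1⟩
      rw [Metric.mem_closedBall, dist_zero_right]
      exact not_lt.1 hc
    rw [e1, h3 _ hy]
    simp only [h4 _ _ hy]
    simp
  have hv : (volume : Measure (Pt D)).real (Metric.closedBall (0 : Fin D → ℝ) r ×ˢ Icc (0 : ℝ) 1) =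
      (2 * r) ^ D := by
    rw [Measure.volume_eq_prod, measureReal_prod_prod, Measure.real, Real.volume_pi_closedBall _ hr,
      Real.volume_real_Icc, sub_zero, max_eq_left zero_le_one, mul_one, Fintype.card_fin,
      ENNReal.toReal_ofReal (by positivity)]
  have hfin : (volume : Measure (Pt D)) (Metric.closedBall (0 : Fin D → ℝ) r ×ˢ Icc (0 : ℝ) 1) < ⊤ := by
    rw [Measure.volume_eq_prod, Measure.prod_prod]
    exact ENNReal.mul_lt_top measure_closedBall_lt_top measure_Icc_lt_top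
  have e4 := norm_setIntegral_le_of_norm_le_const hfin fun p hp => e2 p hp.2
  rw [hv, ← e3] at e4
  exact (le_abs_self _).trans e4

/-- the exponential function -/
def hx (l : Fin D) (y : Fin D → ℝ) : ℝ := Real.exp (Real.pi / 2 * y l)

lemma hx_deriv (l : Fin D) (y : Fin D → ℝ) : HasFDerivAt (hx l)
    ((hx l y * (Real.pi / 2)) • (ContinuousLinearMap.proj l : (Fin D → ℝ) →L[ℝ] ℝ)) y := by
  have h1 : HasFDerivAt (fun y : Fin D → ℝ => Real.pi / 2 * y l)
      ((Real.pi / 2) • (ContinuousLinearMap.proj l : (Fin D → ℝ) →L[ℝ] ℝ)) y :=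
    (hasFDerivAt_apply l y).const_mul _
  have h2 := h1.exp
  rw [smul_smul] at h2
  exact h2

lemma hx_smooth (l : Fin D) : ContDiff ℝ ∞ (hx l) :=
  Real.contDiff_exp.comp (contDiff_const.mul (contDiff_apply ℝ ℝ l))

lemma hx_pa (l i : Fin D) : pa (hx l) i = fun y => if i = l then Real.pi / 2 * hx l y else 0 := by
  funext y
  unfold pa
  rw [(hx_deriv l y).fderiv]
  by_cases h : i = l
  · subst h
    simp [mul_comm]
  · simp [h, Ne.symm h]

lemma hx_pa2 (l i j : Fin D) (y : Fin D → ℝ) : pa (pa (hx l) i) j y =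
    if i = l then (if j = l then (Real.pi / 2) ^ 2 * hx l y else 0) else 0 := by
  rw [hx_pa]
  by_cases h : i = l
  · simp only [if_pos h]
    unfold pa
    rw [((hx_deriv l y).const_mul (Real.pi / 2)).fderiv]
    by_cases h' : j = l
    · subst h'
      simp
      ring
    · simp [h', Ne.symm h']
  · simp only [if_neg h]
    unfold pa
    simp

/-- the cut off exponential function -/
def ca (φ : ContDiffBump (0 : Fin D → ℝ)) (l : Fin D) (R : ℝ) (y : Fin D → ℝ) : ℝ :=
  φ (R⁻¹ • y) * hx l y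

lemma ca_smooth (φ : ContDiffBump (0 : Fin D → ℝ)) (l : Fin D) (R : ℝ) :
    ContDiff ℝ ∞ (ca φ l R) :=
  (φ.contDiff.comp (contDiff_const_smul _)).mul (hx_smooth l)

lemma ca_zero (φ : ContDiffBump (0 : Fin D → ℝ)) (l : Fin D) {R : ℝ} (hR : 0 < R) {y : Fin D → ℝ}
    (h : φ.rOut * R ≤ ‖y‖) : ca φ l R y = 0 := by
  unfold ca
  rw [φ.zero_of_le_dist, zero_mul]
  rw [dist_zero_right, norm_smul, norm_inv, Real.norm_eq_abs, abs_of_pos hR, inv_mul_eq_div,
    le_div_iff₀ hR]
  exact h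

lemma ca_eq (φ : ContDiffBump (0 : Fin D → ℝ)) (l : Fin D) {R : ℝ} (hR : 0 < R) {y : Fin D → ℝ}
    (h : ‖y‖ ≤ φ.rIn * R) : ca φ l R y = hx l y := by
  unfold ca
  rw [φ.one_of_mem_closedBall, one_mul]
  rw [Metric.mem_closedBall, dist_zero_right, norm_smul, norm_inv, Real.norm_eq_abs,
    abs_of_pos hR, inv_mul_eq_div, div_le_iff₀ hR]
  exact h

lemma ca_supp (φ : ContDiffBump (0 : Fin D → ℝ)) (l : Fin D) {R : ℝ} (hR : 0 < R) :
    HasCompactSupport (ca φ l R) :=
  HasCompactSupport.intro (isCompact_closedBall (0 : Fin D → ℝ) (φ.rOut * R)) fun y hy =>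
    ca_zero φ l hR (by
      rw [Metric.mem_closedBall, dist_zero_right, not_le] at hy
      exact hy.le)

lemma hx_le {l : Fin D} {y : Fin D → ℝ} {r : ℝ} (h : ‖y‖ ≤ r) :
    hx l y ≤ Real.exp (Real.pi / 2 * r) := by
  unfold hx
  refine Real.exp_le_exp.2 (mul_le_mul_of_nonneg_left ?_ (by positivity))
  exact (le_abs_self _).trans ((norm_le_pi_norm y l).trans h)

lemma ca_le (φ : ContDiffBump (0 : Fin D → ℝ)) (l : Fin D) {R : ℝ} (hR : 0 < R) (y : Fin D → ℝ) :
    |ca φ l R y| ≤ Real.exp (Real.pi / 2 * (φ.rOut * R)) := by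
  by_cases h : φ.rOut * R ≤ ‖y‖
  · rw [ca_zero φ l hR h, abs_zero]
    exact (Real.exp_pos _).le
  · unfold ca
    rw [abs_mul, abs_of_nonneg φ.nonneg, abs_of_pos (show 0 < hx l y from Real.exp_pos _)]
    exact (mul_le_of_le_one_left (Real.exp_pos _).le φ.le_one).trans (hx_le (not_le.1 h).le)

lemma ca_pa (φ : ContDiffBump (0 : Fin D → ℝ)) (l : Fin D) (R : ℝ) (i : Fin D) (y : Fin D → ℝ) :
    pa (ca φ l R) i y = φ (R⁻¹ • y) * (if i = l then Real.pi / 2 * hx l y else 0) +
      hx l y * (fderiv ℝ φ (R⁻¹ • y) (R⁻¹ • Pi.single i 1)) := by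
  have h1 : HasFDerivAt (fun y : Fin D → ℝ => φ (R⁻¹ • y))
      ((fderiv ℝ φ (R⁻¹ • y)).comp (R⁻¹ • ContinuousLinearMap.id ℝ (Fin D → ℝ))) y := by
    refine ((φ.contDiff (n := ⊤)).differentiable (by norm_num) (R⁻¹ • y)).hasFDerivAt.comp y ?_
    exact (hasFDerivAt_id y).const_smul R⁻¹
  have h2 : HasFDerivAt (fun y : Fin D → ℝ => φ (R⁻¹ • y) * hx l y) _ y := h1.mul (hx_deriv l y)
  have h3 := congrFun (hx_pa l i) y
  unfold pa at h3 ⊢
  unfold ca
  rw [h2.fderiv]
  rw [(hx_deriv l y).fderiv] at h3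
  simp only [add_apply, smul_apply, smul_eq_mul,
    ContinuousLinearMap.comp_apply, ContinuousLinearMap.id_apply] at h3 ⊢
  rw [h3]

lemma ca_pa_zero (φ : ContDiffBump (0 : Fin D → ℝ)) (l : Fin D) {R : ℝ} (hR : 0 < R) (i : Fin D)
    {y : Fin D → ℝ} (h : φ.rOut * R < ‖y‖) : pa (ca φ l R) i y = 0 := by
  have h1 : ca φ l R =ᶠ[𝓝 y] fun _ => 0 := by
    filter_upwards [(isOpen_lt continuous_const continuous_norm).mem_nhds h] with t ht
    exact ca_zero φ l hR (le_of_lt ht)
  unfold pa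
  rw [h1.fderiv_eq]
  simp

lemma ca_pa_le (φ : ContDiffBump (0 : Fin D → ℝ)) : ∃ C : ℝ, 1 ≤ C ∧ ∀ (l : Fin D) (R : ℝ), 1 ≤ R →
    ∀ i y, |pa (ca φ l R) i y| ≤ C * Real.exp (Real.pi / 2 * (φ.rOut * R)) := by
  obtain ⟨C, hC⟩ := (φ.hasCompactSupport.fderiv (𝕜 := ℝ)).exists_bound_of_continuous
    ((φ.contDiff (n := ⊤)).continuous_fderiv (by norm_num))
  have hC0 : 0 ≤ C := (norm_nonneg _).trans (hC 0)
  have hpi := Real.pi_gt_three
  refine ⟨C + Real.pi / 2, by linarith, fun l R hR i y => ?_⟩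
  have hR0 : 0 < R := by linarith
  by_cases h : φ.rOut * R < ‖y‖
  · rw [ca_pa_zero φ l hR0 i h, abs_zero]
    positivity
  · have hx0 : 0 < hx l y := Real.exp_pos _
    have hy := hx_le (l := l) (not_lt.1 h)
    rw [ca_pa]
    have t1 : |φ (R⁻¹ • y) * (if i = l then Real.pi / 2 * hx l y else 0)| ≤
        Real.pi / 2 * hx l y := by
      rw [abs_mul, abs_of_nonneg φ.nonneg]
      have : |(if i = l then Real.pi / 2 * hx l y else 0)| ≤ Real.pi / 2 * hx l y := by
        split_ifs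
        · rw [abs_of_pos (by positivity)]
        · rw [abs_zero]; positivity
      exact (mul_le_of_le_one_left (abs_nonneg _) φ.le_one).trans this
    have t2 : |hx l y * (fderiv ℝ φ (R⁻¹ • y) (R⁻¹ • Pi.single i 1))| ≤ hx l y * C := by
      rw [abs_mul, abs_of_pos hx0]
      refine mul_le_mul_of_nonneg_left ?_ hx0.le
      refine ((fderiv ℝ φ (R⁻¹ • y)).le_opNorm _).trans ?_
      have t3 : ‖R⁻¹ • (Pi.single i 1 : Fin D → ℝ)‖ ≤ 1 := by
        rw [norm_smul, norm_inv, Real.norm_eq_abs, abs_of_pos hR0, Pi.norm_single, norm_one,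
          mul_one]
        exact inv_le_one_of_one_le₀ hR
      calc _ ≤ C * 1 := mul_le_mul (hC _) t3 (norm_nonneg _) hC0
        _ = C := mul_one _
    calc _ ≤ Real.pi / 2 * hx l y + hx l y * C := (abs_add_le _ _).trans (add_le_add t1 t2)
      _ = (C + Real.pi / 2) * hx l y := by ring
      _ ≤ _ := mul_le_mul_of_nonneg_left hy (by positivity)

/-- the image of the field vanishes inside -/
lemma fg_ca (φ : ContDiffBump (0 : Fin D → ℝ)) {l k : Fin D} (hlk : l ≠ k) {R : ℝ} (hR : 0 < R)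
    (s : ℝ → ℝ) {p : Pt D} (h : ‖p.1‖ < φ.rIn * R) : fg (ca φ l R) s k p = 0 := by
  have h1 : ca φ l R =ᶠ[𝓝 p.1] hx l := by
    filter_upwards [(isOpen_lt continuous_norm continuous_const).mem_nhds h] with t ht
    exact ca_eq φ l hR (le_of_lt ht)
  have h2 : ∀ i, pa (ca φ l R) i =ᶠ[𝓝 p.1] pa (hx l) i := by
    intro i
    filter_upwards [h1.fderiv (𝕜 := ℝ)] with t ht
    unfold pa
    rw [ht]
  have h3 : ∀ i j, pa (pa (ca φ l R) i) j p.1 = pa (pa (hx l) i) j p.1 := by
    intro i j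
    unfold pa at h2 ⊢
    rw [(h2 i).fderiv_eq]
  funext j
  unfold fg
  simp only [h3, hx_pa2, h1.eq_of_nhds]
  have h4 : ¬k = l := fun h => hlk h.symm
  simp only [h4, if_false, ite_self, add_zero, Pi.zero_apply, mul_eq_zero]
  right
  have h5 : ∀ i : Fin D, (if i = l then (if i = l then (Real.pi / 2) ^ 2 * hx l p.1 else 0) else 0) =
      if i = l then (Real.pi / 2) ^ 2 * hx l p.1 else 0 := by
    intro i
    by_cases h : i = l <;> simp [h]
  simp only [h5, Finset.sum_ite_eq', Finset.mem_univ, if_true, sub_self, ite_self]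

/-- the pairing -/
lemma pair_ca (φ : ContDiffBump (0 : Fin D → ℝ)) (hφ : φ.rIn = 1) (l k : Fin D) {R : ℝ}
    (hR : φ.rOut ≤ R) {s : ℝ → ℝ} (hs : Prof s) :
    JC (fw (ca φ l 1) s k) (fw (ca φ l R) s k) =
      2 * ((∫ y, ca φ l 1 y * hx l y) * ∫ z in Icc (0 : ℝ) 1, s z ^ 2) := by
  have hR0 : 0 < R := lt_of_lt_of_le φ.rOut_pos hR
  unfold JC
  congr 1
  have e1 : ∀ p : Pt D, ∑ i, fw (ca φ l 1) s k p i * fw (ca φ l R) s k p i =
      (ca φ l 1 p.1 * hx l p.1) * s p.2 ^ 2 := by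
    intro p
    unfold fw
    simp only [ite_mul, zero_mul, Finset.sum_ite_eq', Finset.mem_univ, if_true]
    by_cases h : φ.rOut * 1 ≤ ‖p.1‖
    · rw [ca_zero φ l one_pos h]
      ring
    · rw [ca_eq φ l hR0 (y := p.1) (by
        rw [hφ, one_mul]
        rw [mul_one] at h
        exact (not_le.1 h).le.trans hR)]
      ring
  simp only [e1]
  have hc : Cc fun p : Pt D => (ca φ l 1 p.1 * hx l p.1) * s p.2 ^ 2 := by
    have h1 := (ca_smooth φ l 1).continuous
    have h2 := (hx_smooth l).continuous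
    have h3 := hs.smooth.continuous
    refine ⟨((h1.comp continuous_fst).mul (h2.comp continuous_fst)).mul
      ((h3.comp continuous_snd).pow 2), ?_⟩
    refine HasCompactSupport.intro ((ca_supp φ l one_pos).isCompact.prod hs.supp.isCompact)
      fun p hp => ?_
    rw [mem_prod, not_and_or] at hp
    rcases hp with hp | hp
    · rw [image_eq_zero_of_notMem_tsupport hp]; ring
    · rw [image_eq_zero_of_notMem_tsupport hp]; ring
  rw [int_slb hc]
  simp only [integral_const_mul]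
  rw [integral_mul_const]

lemma pair_pos (φ : ContDiffBump (0 : Fin D → ℝ)) (l : Fin D) {s : ℝ → ℝ} (hs : Prof s) :
    0 < 2 * ((∫ y, ca φ l 1 y * hx l y) * ∫ z in Icc (0 : ℝ) 1, s z ^ 2) := by
  have h1 := (ca_smooth φ l 1).continuous
  have h2 := (hx_smooth l).continuous
  have hpos : ∀ y, 0 < hx l y := fun y => Real.exp_pos _
  have p1 : 0 < ∫ y, ca φ l 1 y * hx l y := by
    refine Continuous.integral_pos_of_hasCompactSupport_nonneg_nonzero (x := 0) (h1.mul h2)
      (ca_supp φ l one_pos).mul_right (fun y => ?_) ?_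
    · unfold ca
      exact mul_nonneg (mul_nonneg φ.nonneg (hpos y).le) (hpos y).le
    · rw [ca_eq φ l one_pos (y := 0) (by rw [norm_zero, mul_one]; exact φ.rIn_pos.le)]
      exact (mul_pos (hpos 0) (hpos 0)).ne'
  have p2 : 0 < ∫ z in Icc (0 : ℝ) 1, s z ^ 2 := by
    rw [integral_Icc_eq_integral_Ioc, ← intervalIntegral.integral_of_le zero_le_one]
    refine intervalIntegral.intervalIntegral_pos_of_pos_on
      ((hs.smooth.continuous.pow 2).intervalIntegrable 0 1) (fun z hz => ?_) one_pos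
    rw [hs.val z ⟨hz.1.le, hz.2.le⟩]
    have : 0 < Real.sin (Real.pi / 2 * z) := by
      refine Real.sin_pos_of_pos_of_lt_pi ?_ ?_
      · have := hz.1
        positivity
      · have := hz.2
        have := Real.pi_pos
        nlinarith
    positivity
  positivity

/-- **The mass of the continuum limit is at most `π / 2`.** -/
theorem not_rate (hD : 2 ≤ D) {m : ℝ} (hm : Real.pi / 2 < m) : ¬ ∃ C : ℝ,
    ∀ (f g : Pt D → Fin D → ℝ) (R : ℝ), Continuous f → Continuous g → HasCompactSupport f →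
      HasCompactSupport g → 0 ≤ R → (∀ p q, f p ≠ 0 → g q ≠ 0 → R ≤ dist p.1 q.1) →
      |QC (f + g) - QC f - QC g| ≤ C * Real.exp (-(m * R)) * √(QC f * QC g) := by
  rintro ⟨C, hC⟩
  have hpi := Real.pi_pos
  obtain ⟨lam, hl1, hl2⟩ : ∃ lam : ℝ, 1 < lam ∧ Real.pi / 2 * lam < m := by
    refine ⟨(1 + m / (Real.pi / 2)) / 2, ?_, ?_⟩
    · have : 1 < m / (Real.pi / 2) := by rwa [one_lt_div (by positivity)]
      linarith
    · have : Real.pi / 2 * ((1 + m / (Real.pi / 2)) / 2) = (Real.pi / 2 + m) / 2 := by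
        field_simp
      rw [this]
      linarith
  let φ : ContDiffBump (0 : Fin D → ℝ) := ⟨1, lam, one_pos, hl1⟩
  obtain ⟨s, hs⟩ := exists_prof
  let l : Fin D := ⟨0, by omega⟩
  let k : Fin D := ⟨1, by omega⟩
  have hlk : l ≠ k := by
    intro h
    have := congrArg Fin.val h
    simp [l, k] at this
  obtain ⟨B, hB1, hB⟩ := ca_pa_le φ
  obtain ⟨c0, hc0⟩ : ∃ c0, c0 = 2 * ((∫ y, ca φ l 1 y * hx l y) *
    ∫ z in Icc (0 : ℝ) 1, s z ^ 2) := ⟨_, rfl⟩
  have hc0' : 0 < c0 := hc0 ▸ pair_pos φ l hs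
  have t1 := fw_test (ca_smooth φ l 1) (ca_supp φ l one_pos) hs k
  obtain ⟨f, hf⟩ : ∃ f, f = fw (ca φ l 1) s k := ⟨_, rfl⟩
  have hfc : Continuous f := by rw [hf]; exact t1.smooth.continuous
  have hfs : HasCompactSupport f := by rw [hf]; exact t1.supp
  obtain ⟨V, hV⟩ : ∃ V, V = QC f * (((Real.pi / 2) ^ 2 + D) * B ^ 2) := ⟨_, rfl⟩
  have hQf := Pool.Agent.N990.C.QC_nonneg hfc hfs
  have hV0 : 0 ≤ V := by rw [hV]; positivity
  have key : ∀ R : ℝ, lam ≤ R → 1 ≤ R → c0 ≤ |C| * Real.exp (-(m * (R - lam))) *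
      (√V * (2 * (lam * R)) ^ D * Real.exp (Real.pi / 2 * (lam * R))) := by
    intro R hR hR1
    have hR0 : 0 < R := by linarith
    have hlR : 0 ≤ lam * R := by positivity
    have t2 := fw_test (ca_smooth φ l R) (ca_supp φ l hR0) hs k
    have hw := fw_weak (ca_smooth φ l R) (ca_supp φ l hR0) hs k
    have hgc := fg_cont (ca_smooth φ l R) hs k
    have hgs := fg_supp (ca_supp φ l hR0) hs k
    have e1 := QC_add hfc hfs hgc hgs t2 hw
    have e2 := QC_eq hgc hgs t2 hw
    have e3 : QC (f + fg (ca φ l R) s k) - QC f - QC (fg (ca φ l R) s k) = c0 := by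
      rw [e1, e2, hf, pair_ca φ rfl l k hR hs, hc0]
      ring
    have e4 := hC f (fg (ca φ l R) s k) (R - lam) hfc hgc hfs hgs (by linarith) (by
      intro p q hp hq
      have h1 : ‖p.1‖ ≤ lam := by
        by_contra h
        apply hp
        rw [hf]
        funext i
        unfold fw
        rw [ca_zero φ l one_pos (y := p.1) (by
          rw [mul_one]
          exact (not_le.1 h).le), zero_mul, ite_self]
        rfl
      have h2 : R ≤ ‖q.1‖ := by
        by_contra h
        apply hq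
        refine fg_ca φ hlk hR0 s ?_
        rw [show φ.rIn = 1 from rfl, one_mul]
        exact not_le.1 h
      rw [dist_comm, dist_eq_norm]
      have := norm_sub_norm_le q.1 p.1
      linarith)
    rw [e3, abs_of_pos hc0'] at e4
    refine e4.trans ?_
    have e5 : QC (fg (ca φ l R) s k) ≤ ((Real.pi / 2) ^ 2 + D) *
        (B * Real.exp (Real.pi / 2 * (lam * R))) ^ 2 * (2 * (lam * R)) ^ D := by
      rw [e2]
      refine fw_EC (ca_smooth φ l R) (ca_supp φ l hR0) hs k hlR (fun y => ?_) (fun i y => ?_)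
        (fun y hy => ca_zero φ l hR0 hy.le) (fun i y hy => ca_pa_zero φ l hR0 i hy)
      · exact (ca_le φ l hR0 y).trans (le_mul_of_one_le_left (Real.exp_pos _).le hB1)
      · exact hB l R hR1 i y
    have e6 : √(QC f * QC (fg (ca φ l R) s k)) ≤
        √V * (2 * (lam * R)) ^ D * Real.exp (Real.pi / 2 * (lam * R)) := by
      have h1 : QC f * QC (fg (ca φ l R) s k) ≤ V * ((2 * (lam * R)) ^ D) ^ 2 *
          Real.exp (Real.pi / 2 * (lam * R)) ^ 2 := by
        have h2 : (2 * (lam * R)) ^ D ≤ ((2 * (lam * R)) ^ D) ^ 2 := by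
          have : 1 ≤ (2 * (lam * R)) ^ D := one_le_pow₀ (by nlinarith)
          nlinarith
        calc QC f * QC (fg (ca φ l R) s k) ≤ QC f * (((Real.pi / 2) ^ 2 + D) *
              (B * Real.exp (Real.pi / 2 * (lam * R))) ^ 2 * (2 * (lam * R)) ^ D) :=
              mul_le_mul_of_nonneg_left e5 hQf
          _ ≤ QC f * (((Real.pi / 2) ^ 2 + D) *
              (B * Real.exp (Real.pi / 2 * (lam * R))) ^ 2 * ((2 * (lam * R)) ^ D) ^ 2) := by
              refine mul_le_mul_of_nonneg_left (mul_le_mul_of_nonneg_left h2 ?_) hQf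
              positivity
          _ = _ := by
              rw [hV]
              ring
      refine (Real.sqrt_le_sqrt h1).trans (le_of_eq ?_)
      rw [Real.sqrt_mul (by positivity), Real.sqrt_mul hV0, Real.sqrt_sq (by positivity),
        Real.sqrt_sq (Real.exp_pos _).le]
    have e7 : C * Real.exp (-(m * (R - lam))) ≤ |C| * Real.exp (-(m * (R - lam))) :=
      mul_le_mul_of_nonneg_right (le_abs_self C) (Real.exp_pos _).le
    exact (mul_le_mul_of_nonneg_right e7 (Real.sqrt_nonneg _)).trans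
      (mul_le_mul_of_nonneg_left e6 (by positivity))
  obtain ⟨δ, hδ⟩ : ∃ δ, δ = m - Real.pi / 2 * lam := ⟨_, rfl⟩
  have hδ0 : 0 < δ := by rw [hδ]; linarith
  have lim : Tendsto (fun R : ℝ => |C| * Real.exp (-(m * (R - lam))) *
      (√V * (2 * (lam * R)) ^ D * Real.exp (Real.pi / 2 * (lam * R)))) atTop (𝓝 0) := by
    have h1 := (Real.tendsto_pow_mul_exp_neg_atTop_nhds_zero D).comp
      (tendsto_id.const_mul_atTop hδ0)
    have h2 := h1.const_mul (|C| * √V * Real.exp (m * lam) * (2 * lam / δ) ^ D)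
    rw [mul_zero] at h2
    refine h2.congr fun R => ?_
    simp only [Function.comp, id]
    have h3 : Real.exp (-(m * (R - lam))) * Real.exp (Real.pi / 2 * (lam * R)) =
        Real.exp (m * lam) * Real.exp (-(δ * R)) := by
      rw [← Real.exp_add, ← Real.exp_add, hδ]
      congr 1
      ring
    have h4 : (2 * lam / δ) ^ D * (δ * R) ^ D = (2 * (lam * R)) ^ D := by
      rw [← mul_pow]
      congr 1
      field_simp
    calc |C| * √V * Real.exp (m * lam) * (2 * lam / δ) ^ D * ((δ * R) ^ D * Real.exp (-(δ * R))) =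
        |C| * √V * ((2 * lam / δ) ^ D * (δ * R) ^ D) * (Real.exp (m * lam) * Real.exp (-(δ * R))) := by
          ring
      _ = _ := by
          rw [h4, ← h3]
          ring
  have h5 := ge_of_tendsto lim (b := c0) (by
    filter_upwards [eventually_ge_atTop lam, eventually_ge_atTop 1] with R h1 h2
    exact key R h1 h2)
  linarith

end

end Pool.Agent.N986.CL
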