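import Pool.Agent.N839.C.Poinc
import Pool.Agent.N990.C.Low2

/-!
# Sharpness of the mass of the continuum limit: the quadratic form
-/

set_option autoImplicit false
set_option linter.unusedSectionVars false
set_option linter.unusedVariables false

open MeasureTheory Set Filter Topology

namespace Pool.Agent.N986.CL

open Pool.Agent.N990.C (Pt Slb eh ez pd dC EC IsTest JC QC)
open Pool.Agent.N839.C (Cc u_cc pd_cc dC_cc int_slb)

noncomputable section

variable {D : ℕ}

/-- the bilinear energy density -/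
def dB (w u : Pt D → Fin D → ℝ) (p : Pt D) : ℝ :=
  ∑ i, pd w (ez D) i p * pd u (ez D) i p + ∑ i, ∑ j, if i < j then
    (pd w (eh i) j p - pd w (eh j) i p) * (pd u (eh i) j p - pd u (eh j) i p) else 0

/-- the bilinear energy -/
def EB (w u : Pt D → Fin D → ℝ) : ℝ := ∫ p in Slb D, dB w u p

lemma dB_cc {w u : Pt D → Fin D → ℝ} (hw : IsTest w) (hu : IsTest u) : Cc (dB w u) := by
  unfold dB
  refine Cc.add (Cc.sum _ fun i _ => (pd_cc hw _ i).mul (pd_cc hu _ i).1)
    (Cc.sum _ fun i _ => Cc.sum _ fun j _ => ?_)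
  split_ifs
  · exact ((pd_cc hw _ j).sub (pd_cc hw _ i)).mul ((pd_cc hu _ j).sub (pd_cc hu _ i)).1
  · exact Cc.zero

lemma IsTest.sub' {u w : Pt D → Fin D → ℝ} (hu : IsTest u) (hw : IsTest w) : IsTest (u - w) :=
  ⟨hu.smooth.sub hw.smooth, hu.supp.sub hw.supp, fun y => by
    rw [Pi.sub_apply, hu.wall, hw.wall, sub_zero]⟩

lemma IsTest.add' {u w : Pt D → Fin D → ℝ} (hu : IsTest u) (hw : IsTest w) : IsTest (u + w) :=
  ⟨hu.smooth.add hw.smooth, hu.supp.add hw.supp, fun y => by
    rw [Pi.add_apply, hu.wall, hw.wall, add_zero]⟩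

lemma pd_sub {u w : Pt D → Fin D → ℝ} (hu : IsTest u) (hw : IsTest w) (e : Pt D) (i : Fin D)
    (p : Pt D) : pd (u - w) e i p = pd u e i p - pd w e i p := by
  unfold pd
  rw [fderiv_sub (hu.smooth.differentiable (by norm_num) p)
    (hw.smooth.differentiable (by norm_num) p)]
  rfl

lemma dC_sub {u w : Pt D → Fin D → ℝ} (hu : IsTest u) (hw : IsTest w) (p : Pt D) :
    dC (u - w) p = dC u p - 2 * dB w u p + dC w p := by
  unfold dC dB
  simp only [pd_sub hu hw]
  have h1 : ∀ i, (pd u (ez D) i p - pd w (ez D) i p) ^ 2 = pd u (ez D) i p ^ 2 -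
      2 * (pd w (ez D) i p * pd u (ez D) i p) + pd w (ez D) i p ^ 2 := fun i => by ring
  have h2 : ∀ i j : Fin D, (if i < j then (pd u (eh i) j p - pd w (eh i) j p -
      (pd u (eh j) i p - pd w (eh j) i p)) ^ 2 else 0) =
      (if i < j then (pd u (eh i) j p - pd u (eh j) i p) ^ 2 else 0) -
      2 * (if i < j then (pd w (eh i) j p - pd w (eh j) i p) *
        (pd u (eh i) j p - pd u (eh j) i p) else 0) +
      (if i < j then (pd w (eh i) j p - pd w (eh j) i p) ^ 2 else 0) := by
    intro i j
    split_ifs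
    · ring
    · ring
  simp only [h1, h2, Finset.sum_add_distrib, Finset.sum_sub_distrib, ← Finset.mul_sum]
  ring

lemma EC_sub {u w : Pt D → Fin D → ℝ} (hu : IsTest u) (hw : IsTest w) :
    EC (u - w) = EC u - 2 * EB w u + EC w := by
  unfold EC EB
  simp only [dC_sub hu hw]
  have i1 := (dC_cc hu).int.integrableOn (s := Slb D)
  have i2 := ((dB_cc hw hu).int.integrableOn (s := Slb D)).const_mul 2
  have i3 := (dC_cc hw).int.integrableOn (s := Slb D)
  have i12 : IntegrableOn (fun p => dC u p - 2 * dB w u p) (Slb D) := i1.sub i2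
  rw [integral_add i12 i3, integral_sub i1 i2, integral_const_mul]

lemma pair_cc {f u : Pt D → Fin D → ℝ} (hf : Continuous f) (hu : IsTest u) :
    Cc fun p => ∑ i, f p i * u p i := by
  refine Cc.sum _ fun i _ => ?_
  have h := (u_cc hu i).mul ((continuous_apply i).comp hf)
  simpa only [mul_comm, Function.comp] using h

lemma JC_sub {f u w : Pt D → Fin D → ℝ} (hf : Continuous f) (hu : IsTest u) (hw : IsTest w) :
    JC f (u - w) = JC f u - JC f w := by
  unfold JC
  have h : ∀ p, ∑ i, f p i * (u - w) p i = ∑ i, f p i * u p i - ∑ i, f p i * w p i := by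
    intro p
    rw [← Finset.sum_sub_distrib]
    exact Finset.sum_congr rfl fun i _ => by rw [Pi.sub_apply, Pi.sub_apply, mul_sub]
  simp only [h]
  rw [integral_sub (pair_cc hf hu).int.integrableOn (pair_cc hf hw).int.integrableOn, mul_sub]

lemma JC_add_left {f g u : Pt D → Fin D → ℝ} (hf : Continuous f) (hg : Continuous g)
    (hu : IsTest u) : JC (f + g) u = JC f u + JC g u := by
  unfold JC
  have h : ∀ p, ∑ i, (f + g) p i * u p i = ∑ i, f p i * u p i + ∑ i, g p i * u p i := by
    intro p
    rw [← Finset.sum_add_distrib]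
    exact Finset.sum_congr rfl fun i _ => by rw [Pi.add_apply, Pi.add_apply, add_mul]
  simp only [h]
  rw [integral_add (pair_cc hf hu).int.integrableOn (pair_cc hg hu).int.integrableOn, mul_add]

/-- the covariance with a field in the range of the operator -/
theorem QC_add {f g w : Pt D → Fin D → ℝ} (hf : Continuous f) (hfs : HasCompactSupport f)
    (hg : Continuous g) (hgs : HasCompactSupport g) (hw : IsTest w)
    (h : ∀ u, IsTest u → JC g u = 2 * EB w u) : QC (f + g) = QC f + JC f w + EC w := by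
  have key : ∀ u, IsTest u → JC (f + g) u - EC u = (JC f (u - w) - EC (u - w)) + (JC f w + EC w) := by
    intro u hu
    rw [JC_add_left hf hg hu, h u hu, JC_sub hf hu hw, EC_sub hu hw]
    ring
  apply le_antisymm
  · unfold QC
    refine csSup_le ⟨_, 0, Pool.Agent.N990.C.IsTest.zero, rfl⟩ ?_
    rintro t ⟨u, hu, rfl⟩
    rw [key u hu]
    have := Pool.Agent.N990.C.le_QC hf hfs (IsTest.sub' hu hw)
    unfold QC at this
    linarith
  · have h1 : QC f ≤ QC (f + g) - (JC f w + EC w) := by
      conv_lhs => unfold QC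
      refine csSup_le ⟨_, 0, Pool.Agent.N990.C.IsTest.zero, rfl⟩ ?_
      rintro t ⟨u, hu, rfl⟩
      have h2 := key (u + w) (IsTest.add' hu hw)
      rw [add_sub_cancel_right] at h2
      have h3 := Pool.Agent.N990.C.le_QC (hf.add hg) (hfs.add hgs) (IsTest.add' hu hw)
      linarith
    linarith

lemma QC_zero : QC (0 : Pt D → Fin D → ℝ) = 0 := by
  apply le_antisymm
  · unfold QC
    refine csSup_le ⟨_, 0, Pool.Agent.N990.C.IsTest.zero, rfl⟩ ?_
    rintro t ⟨u, hu, rfl⟩
    have h1 : JC (0 : Pt D → Fin D → ℝ) u = 0 := by unfold JC; simp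
    have h2 := Pool.Agent.N839.C.EC_nonneg u
    linarith
  · exact Pool.Agent.N990.C.QC_nonneg continuous_zero HasCompactSupport.zero

theorem QC_eq {g w : Pt D → Fin D → ℝ}
    (hg : Continuous g) (hgs : HasCompactSupport g) (hw : IsTest w)
    (h : ∀ u, IsTest u → JC g u = 2 * EB w u) : QC g = EC w := by
  have h1 := QC_add continuous_zero HasCompactSupport.zero hg hgs hw h
  rw [zero_add, QC_zero] at h1
  have h2 : JC (0 : Pt D → Fin D → ℝ) w = 0 := by unfold JC; simp
  rw [h1, h2]
  ring

end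

end Pool.Agent.N986.CL
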