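import Pool.Agent.N986.CL.Ibp

/-!
# The field `w = a(y) s(z) e_k` and its image under the operator
-/

set_option autoImplicit false
set_option linter.unusedSectionVars false
set_option linter.unusedVariables false
set_option linter.style.haveILetI false

open MeasureTheory Set Filter Topology
open scoped ContDiff

namespace Pool.Agent.N986.CL

open Pool.Agent.N990.C (Pt Slb eh ez pd dC EC IsTest JC QC)
open Pool.Agent.N839.C (Cc u_cc pd_cc dC_cc int_slb)

noncomputable section

variable {D : ℕ}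

/-- the vertical profile -/
structure Prof (s : ℝ → ℝ) : Prop where
  smooth : ContDiff ℝ ∞ s
  supp : HasCompactSupport s
  val : ∀ z ∈ Icc (0 : ℝ) 1, s z = Real.sin (Real.pi / 2 * z)
  der : ∀ z ∈ Icc (0 : ℝ) 1, deriv s z = Real.pi / 2 * Real.cos (Real.pi / 2 * z)

lemma exists_prof : ∃ s, Prof s := by
  let ψ : ContDiffBump (0 : ℝ) := ⟨2, 3, by norm_num, by norm_num⟩
  have hm : ∀ z ∈ Icc (0 : ℝ) 1, (fun z => ψ z * Real.sin (Real.pi / 2 * z)) =ᶠ[𝓝 z]
      fun z => Real.sin (Real.pi / 2 * z) := by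
    intro z hz
    have h1 : Metric.ball (0 : ℝ) 2 ∈ 𝓝 z := by
      refine Metric.isOpen_ball.mem_nhds ?_
      rw [Metric.mem_ball, dist_zero_right, Real.norm_eq_abs, abs_of_nonneg hz.1]
      linarith [hz.2]
    filter_upwards [h1] with t ht
    rw [ψ.one_of_mem_closedBall (Metric.ball_subset_closedBall ht), one_mul]
  refine ⟨fun z => ψ z * Real.sin (Real.pi / 2 * z), ?_, ?_, fun z hz => (hm z hz).eq_of_nhds,
    fun z hz => ?_⟩
  · exact ψ.contDiff.mul (Real.contDiff_sin.comp (contDiff_const.mul contDiff_id))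
  · exact ψ.hasCompactSupport.mul_right
  · rw [(hm z hz).deriv_eq]
    have h3 := (Real.hasDerivAt_sin (Real.pi / 2 * z)).comp z
      ((hasDerivAt_id z).const_mul (Real.pi / 2))
    have h4 := h3.deriv
    refine Eq.trans ?_ (h4.trans ?_)
    · rfl
    · ring

/-- partial derivative -/
def pa (a : (Fin D → ℝ) → ℝ) (i : Fin D) (y : Fin D → ℝ) : ℝ := fderiv ℝ a y (Pi.single i 1)

lemma pa_smooth {a : (Fin D → ℝ) → ℝ} (ha : ContDiff ℝ ∞ a) (i : Fin D) : ContDiff ℝ ∞ (pa a i) := by
  unfold pa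
  exact (ha.fderiv_right (m := ∞) (by norm_num)).clm_apply contDiff_const

lemma pa_supp {a : (Fin D → ℝ) → ℝ} (ha : HasCompactSupport a) (i : Fin D) :
    HasCompactSupport (pa a i) := by
  refine (ha.fderiv (𝕜 := ℝ)).mono fun y hy => ?_
  rw [Function.mem_support] at hy ⊢
  intro h
  apply hy
  unfold pa
  rw [h]
  rfl

/-- the field -/
def fw (a : (Fin D → ℝ) → ℝ) (s : ℝ → ℝ) (k : Fin D) (p : Pt D) (i : Fin D) : ℝ :=
  if i = k then a p.1 * s p.2 else 0

lemma prod_fderiv {a : (Fin D → ℝ) → ℝ} (ha : ContDiff ℝ ∞ a) {s : ℝ → ℝ} (hs : ContDiff ℝ ∞ s)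
    (p : Pt D) : HasFDerivAt (fun p : Pt D => a p.1 * s p.2)
      (a p.1 • ((deriv s p.2) • ContinuousLinearMap.snd ℝ (Fin D → ℝ) ℝ) +
        s p.2 • (fderiv ℝ a p.1).comp (ContinuousLinearMap.fst ℝ (Fin D → ℝ) ℝ)) p := by
  have h1 : HasFDerivAt (fun p : Pt D => a p.1)
      ((fderiv ℝ a p.1).comp (ContinuousLinearMap.fst ℝ (Fin D → ℝ) ℝ)) p :=
    (ha.differentiable (by norm_num) p.1).hasFDerivAt.comp p hasFDerivAt_fst
  have h2 : HasFDerivAt (fun p : Pt D => s p.2)
      (deriv s p.2 • ContinuousLinearMap.snd ℝ (Fin D → ℝ) ℝ) p :=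
    ((hs.differentiable (by norm_num) p.2).hasDerivAt).comp_hasFDerivAt p hasFDerivAt_snd
  exact h1.mul h2

lemma fw_test {a : (Fin D → ℝ) → ℝ} (ha : ContDiff ℝ ∞ a) (has : HasCompactSupport a) {s : ℝ → ℝ}
    (hs : Prof s) (k : Fin D) : IsTest (fw a s k) := by
  refine ⟨?_, ?_, fun y => ?_⟩
  · rw [contDiff_pi]
    intro i
    unfold fw
    by_cases h : i = k
    · simp only [if_pos h]
      exact ((ha.comp contDiff_fst).mul (hs.smooth.comp contDiff_snd)).of_le (by norm_num)
    · simp only [if_neg h]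
      exact contDiff_const
  · refine HasCompactSupport.intro (has.isCompact.prod hs.supp.isCompact) fun p hp => ?_
    funext i
    unfold fw
    split_ifs
    · rw [mem_prod, not_and_or] at hp
      rcases hp with hp | hp
      · rw [image_eq_zero_of_notMem_tsupport hp, zero_mul]; rfl
      · rw [image_eq_zero_of_notMem_tsupport hp, mul_zero]; rfl
    · rfl
  · funext i
    unfold fw
    have h0 : s 0 = 0 := by
      rw [hs.val 0 ⟨le_refl _, zero_le_one⟩, mul_zero, Real.sin_zero]
    simp only [h0, mul_zero, ite_self]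
    rfl

lemma fw_pd {a : (Fin D → ℝ) → ℝ} (ha : ContDiff ℝ ∞ a) (has : HasCompactSupport a) {s : ℝ → ℝ}
    (hs : Prof s) (k : Fin D) (e : Pt D) (i : Fin D) (p : Pt D) :
    pd (fw a s k) e i p = if i = k then a p.1 * (deriv s p.2 * e.2) +
      s p.2 * fderiv ℝ a p.1 e.1 else 0 := by
  have h1 := comp_fderiv (fw_test ha has hs k) i p
  by_cases h : i = k
  · rw [if_pos h]
    have h2 : (fun p => fw a s k p i) = fun p : Pt D => a p.1 * s p.2 := by
      funext p
      unfold fw
      rw [if_pos h]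
    rw [h2] at h1
    have h3 := congrArg (fun T : Pt D →L[ℝ] ℝ => T e) (h1.unique (prod_fderiv ha hs.smooth p))
    exact h3
  · rw [if_neg h]
    have h2 : (fun p => fw a s k p i) = fun p : Pt D => (0 : ℝ) := by
      funext p
      unfold fw
      rw [if_neg h]
    rw [h2] at h1
    have h3 := congrArg (fun T : Pt D →L[ℝ] ℝ => T e) (h1.unique (hasFDerivAt_const 0 p))
    exact h3

lemma fw_ez {a : (Fin D → ℝ) → ℝ} (ha : ContDiff ℝ ∞ a) (has : HasCompactSupport a) {s : ℝ → ℝ}
    (hs : Prof s) (k i : Fin D) (p : Pt D) :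
    pd (fw a s k) (ez D) i p = if i = k then a p.1 * deriv s p.2 else 0 := by
  rw [fw_pd ha has hs]
  unfold ez
  simp

lemma fw_eh {a : (Fin D → ℝ) → ℝ} (ha : ContDiff ℝ ∞ a) (has : HasCompactSupport a) {s : ℝ → ℝ}
    (hs : Prof s) (k i j : Fin D) (p : Pt D) :
    pd (fw a s k) (eh j) i p = if i = k then s p.2 * pa a j p.1 else 0 := by
  rw [fw_pd ha has hs]
  unfold eh pa
  simp

/-- the image of the field under the operator -/
def fg (a : (Fin D → ℝ) → ℝ) (s : ℝ → ℝ) (k : Fin D) (p : Pt D) (j : Fin D) : ℝ :=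
  s p.2 * ((if j = k then (Real.pi / 2) ^ 2 * a p.1 - ∑ i, pa (pa a i) i p.1 else 0) +
    pa (pa a j) k p.1)

lemma fg_cont {a : (Fin D → ℝ) → ℝ} (ha : ContDiff ℝ ∞ a) {s : ℝ → ℝ} (hs : Prof s) (k : Fin D) :
    Continuous (fg a s k) := by
  refine continuous_pi fun j => ?_
  unfold fg
  have h1 := fun i => (pa_smooth (pa_smooth ha i) i).continuous
  have h2 := (pa_smooth (pa_smooth ha j) k).continuous
  refine (hs.smooth.continuous.comp continuous_snd).mul (Continuous.add ?_ (h2.comp continuous_fst))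
  by_cases h : j = k
  · simp only [if_pos h]
    exact (continuous_const.mul (ha.continuous.comp continuous_fst)).sub
      (continuous_finsetSum _ fun i _ => (h1 i).comp continuous_fst)
  · simp only [if_neg h]
    exact continuous_const

lemma fg_supp {a : (Fin D → ℝ) → ℝ} (has : HasCompactSupport a) {s : ℝ → ℝ} (hs : Prof s)
    (k : Fin D) : HasCompactSupport (fg a s k) := by
  refine HasCompactSupport.intro (has.isCompact.prod hs.supp.isCompact) fun p hp => ?_
  funext j
  unfold fg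
  rw [mem_prod, not_and_or] at hp
  have hsub : ∀ (b : (Fin D → ℝ) → ℝ) (i : Fin D), tsupport (pa b i) ⊆ tsupport b := by
    intro b i
    refine closure_minimal (fun y hy => ?_) (isClosed_tsupport _)
    refine support_fderiv_subset (𝕜 := ℝ) (f := b) ?_
    rw [Function.mem_support] at hy ⊢
    intro h
    apply hy
    unfold pa
    rw [h]
    rfl
  rcases hp with hp | hp
  · have h1 : a p.1 = 0 := image_eq_zero_of_notMem_tsupport hp
    have h2 : ∀ i j, pa (pa a i) j p.1 = 0 := fun i j =>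
      image_eq_zero_of_notMem_tsupport fun h => hp (hsub a i (hsub _ j h))
    simp only [h1, h2]
    simp
  · rw [image_eq_zero_of_notMem_tsupport hp, zero_mul]
    rfl

/-- the density of the bilinear energy -/
lemma fw_dB {a : (Fin D → ℝ) → ℝ} (ha : ContDiff ℝ ∞ a) (has : HasCompactSupport a) {s : ℝ → ℝ}
    (hs : Prof s) (k : Fin D) (u : Pt D → Fin D → ℝ) (p : Pt D) :
    dB (fw a s k) u p = a p.1 * deriv s p.2 * pd u (ez D) k p +
      ∑ i, (s p.2 * pa a i p.1 * pd u (eh i) k p - s p.2 * pa a i p.1 * pd u (eh k) i p) := by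
  unfold dB
  congr 1
  · simp only [fw_ez ha has hs, ite_mul, zero_mul, Finset.sum_ite_eq', Finset.mem_univ, if_true]
  · rw [sum_lt (fun i j => (pd (fw a s k) (eh i) j p - pd (fw a s k) (eh j) i p) *
      (pd u (eh i) j p - pd u (eh j) i p)) (fun i j => by ring) (fun i => by ring)]
    simp only [fw_eh ha has hs, sub_mul, ite_mul, zero_mul, Finset.sum_sub_distrib,
      Finset.sum_ite_eq', Finset.mem_univ, if_true]
    have h1 : ∑ i, ∑ j, (if i = k then s p.2 * pa a j p.1 * (pd u (eh i) j p - pd u (eh j) i p)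
        else 0) = ∑ j, s p.2 * pa a j p.1 * (pd u (eh k) j p - pd u (eh j) k p) := by
      rw [Finset.sum_comm]
      simp only [Finset.sum_ite_eq', Finset.mem_univ, if_true]
    rw [h1, ← Finset.sum_sub_distrib, ← Finset.sum_sub_distrib, Finset.sum_div]
    refine Finset.sum_congr rfl fun i _ => ?_
    ring

/-- **The weak equation.** -/
theorem fw_weak {a : (Fin D → ℝ) → ℝ} (ha : ContDiff ℝ ∞ a) (has : HasCompactSupport a) {s : ℝ → ℝ}
    (hs : Prof s) (k : Fin D) (u : Pt D → Fin D → ℝ) (hu : IsTest u) :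
    JC (fg a s k) u = 2 * EB (fw a s k) u := by
  have cc : ∀ g h : Pt D → ℝ, Continuous g → Cc h → Cc (fun p => g p * h p) := by
    intro g h hg hh
    have := hh.mul hg
    simpa only [mul_comm] using this
  have hsc := hs.smooth.continuous
  have hac := ha.continuous
  have c1 : ∀ i, Continuous fun p : Pt D => s p.2 * pa a i p.1 := fun i =>
    (hsc.comp continuous_snd).mul ((pa_smooth ha i).continuous.comp continuous_fst)
  have c2 : ∀ i j, Continuous fun p : Pt D => s p.2 * pa (pa a i) j p.1 := fun i j =>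
    (hsc.comp continuous_snd).mul ((pa_smooth (pa_smooth ha i) j).continuous.comp continuous_fst)
  have hds : Continuous (deriv s) := hs.smooth.continuous_deriv (by norm_num)
  have c3 : Continuous fun p : Pt D => a p.1 * deriv s p.2 :=
    (hac.comp continuous_fst).mul (hds.comp continuous_snd)
  have c4 : Continuous fun p : Pt D => s p.2 * ((Real.pi / 2) ^ 2 * a p.1) :=
    (hsc.comp continuous_snd).mul (continuous_const.mul (hac.comp continuous_fst))
  have hl : ∀ i j p, HasLineDerivAt ℝ (fun p : Pt D => s p.2 * pa a i p.1)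
      (s p.2 * pa (pa a i) j p.1) p (eh j) := by
    intro i j p
    have h1 := (prod_fderiv (pa_smooth ha i) hs.smooth p).hasLineDerivAt (eh j)
    have h2 : (fun p : Pt D => s p.2 * pa a i p.1) = fun p => pa a i p.1 * s p.2 := by
      funext p
      ring
    rw [h2]
    refine HasDerivAt.congr_deriv h1 ?_
    unfold eh pa
    simp
  unfold JC EB
  congr 1
  simp only [fw_dB ha has hs]
  have I1 : IntegrableOn (fun p => a p.1 * deriv s p.2 * pd u (ez D) k p) (Slb D) :=
    (cc _ _ c3 (pd_cc hu _ k)).int.integrableOn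
  have I2 : ∀ i j l, IntegrableOn (fun p => s p.2 * pa a i p.1 * pd u (eh j) l p) (Slb D) :=
    fun i j l => (cc _ _ (c1 i) (pd_cc hu _ l)).int.integrableOn
  have I3 : ∀ i, IntegrableOn (fun p => s p.2 * pa a i p.1 * pd u (eh i) k p -
      s p.2 * pa a i p.1 * pd u (eh k) i p) (Slb D) := fun i => (I2 i i k).sub (I2 i k i)
  have I4 : IntegrableOn (fun p => ∑ i, (s p.2 * pa a i p.1 * pd u (eh i) k p -
      s p.2 * pa a i p.1 * pd u (eh k) i p)) (Slb D) := integrable_finsetSum _ fun i _ => I3 i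
  have e1 := ibp_v hac hu k hds hs.der
  have e2 : ∀ i, ∫ p in Slb D, s p.2 * pa a i p.1 * pd u (eh i) k p =
      -∫ p in Slb D, s p.2 * pa (pa a i) i p.1 * u p k := fun i =>
    ibp_h hu k i (c1 i) (c2 i i) (hl i i)
  have e3 : ∀ i, ∫ p in Slb D, s p.2 * pa a i p.1 * pd u (eh k) i p =
      -∫ p in Slb D, s p.2 * pa (pa a i) k p.1 * u p i := fun i =>
    ibp_h hu i k (c1 i) (c2 i k) (hl i k)
  have e4 : ∫ p in Slb D, a p.1 * ((Real.pi / 2) ^ 2 * Real.sin (Real.pi / 2 * p.2)) * u p k =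
      ∫ p in Slb D, s p.2 * ((Real.pi / 2) ^ 2 * a p.1) * u p k := by
    refine setIntegral_congr_fun meas_slb fun p hp => ?_
    beta_reduce
    rw [hs.val p.2 hp]
    ring
  have J1 : IntegrableOn (fun p => s p.2 * ((Real.pi / 2) ^ 2 * a p.1) * u p k) (Slb D) :=
    (cc _ _ c4 (u_cc hu k)).int.integrableOn
  have J2 : ∀ i j l, IntegrableOn (fun p => s p.2 * pa (pa a i) j p.1 * u p l) (Slb D) :=
    fun i j l => (cc _ _ (c2 i j) (u_cc hu l)).int.integrableOn
  have J3 : ∀ i, IntegrableOn (fun p => s p.2 * pa (pa a i) k p.1 * u p i -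
      s p.2 * pa (pa a i) i p.1 * u p k) (Slb D) := fun i => (J2 i k i).sub (J2 i i k)
  have J4 : IntegrableOn (fun p => ∑ i, (s p.2 * pa (pa a i) k p.1 * u p i -
      s p.2 * pa (pa a i) i p.1 * u p k)) (Slb D) := integrable_finsetSum _ fun i _ => J3 i
  have e5 : ∀ i, ∫ p in Slb D, (s p.2 * pa a i p.1 * pd u (eh i) k p -
      s p.2 * pa a i p.1 * pd u (eh k) i p) = ∫ p in Slb D, (s p.2 * pa (pa a i) k p.1 * u p i -
      s p.2 * pa (pa a i) i p.1 * u p k) := by
    intro i
    rw [integral_sub (I2 i i k) (I2 i k i), integral_sub (J2 i k i) (J2 i i k), e2, e3]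
    ring
  rw [integral_add I1 I4, integral_finsetSum _ fun i _ => I3 i, e1, e4]
  simp only [e5]
  rw [← integral_finsetSum _ fun i _ => J3 i, ← integral_add J1 J4]
  refine integral_congr_ae (Eventually.of_forall fun p => ?_)
  beta_reduce
  unfold fg
  simp only [mul_add, add_mul, Finset.sum_add_distrib, mul_ite, ite_mul, mul_zero, zero_mul,
    Finset.sum_ite_eq', Finset.mem_univ, if_true, Finset.sum_sub_distrib,
    mul_sub, sub_mul, Finset.mul_sum, Finset.sum_mul]
  ring

end

end Pool.Agent.N986.CL
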